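import Pool.Agent.Helper33.RSQ.Sep2

set_option autoImplicit false

namespace Pool.Agent.Helper33.RSQ

open Set Topology

variable {A B : Type} [CommGroup A] [CommGroup B]

/-- the group `A` with the topology of pointwise convergence on `B` -/
def WT (_ : A →* B →* Circle) : Type := A

section
variable (b : A →* B →* Circle)

instance : CommGroup (WT b) := inferInstanceAs (CommGroup A)

/-- evaluation -/
noncomputable def evA : A →* (B → Circle) where
  toFun a y := b a y
  map_one' := by
    funext y
    rw [map_one]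
    rfl
  map_mul' a a' := by
    funext y
    rw [map_mul]
    rfl

/-- evaluation -/
noncomputable def ev : WT b →* (B → Circle) := evA b

noncomputable instance : TopologicalSpace (WT b) :=
  TopologicalSpace.induced (ev b) inferInstance

instance : IsTopologicalGroup (WT b) := topologicalGroup_induced (ev b)

end

variable {b : A →* B →* Circle}

theorem WT.inducing : IsInducing (ev b) := ⟨rfl⟩

theorem WT.continuous_apply (y : B) : Continuous (fun a : WT b => ev b a y) :=
  (_root_.continuous_apply y).comp (WT.inducing (b := b)).continuous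

theorem WT.continuous_iff {X : Type*} [TopologicalSpace X] {f : X → WT b} :
    Continuous f ↔ ∀ y, Continuous (fun x => ev b (f x) y) := by
  rw [WT.inducing.continuous_iff, continuous_pi_iff]
  rfl

omit [CommGroup B] in
theorem exists_delta {I : Finset B} {u : B → Set Circle} {f : B → Circle}
    (hu : ∀ y ∈ I, IsOpen (u y) ∧ f y ∈ u y) :
    ∃ δ : ℝ, 0 < δ ∧ ∀ y ∈ I, ∀ z, dist z (f y) < δ → z ∈ u y := by
  classical
  induction I using Finset.induction_on with
  | empty => exact ⟨1, one_pos, by simp⟩
  | insert y I _ ih =>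
    obtain ⟨δ, hδ, h⟩ := ih (fun y' hy' => hu y' (Finset.mem_insert_of_mem hy'))
    obtain ⟨h1, h2⟩ := hu y (Finset.mem_insert_self _ _)
    obtain ⟨δ', hδ', h'⟩ := Metric.isOpen_iff.mp h1 (f y) h2
    refine ⟨min δ δ', lt_min hδ hδ', fun y' hy' z hz => ?_⟩
    rcases Finset.mem_insert.mp hy' with rfl | hy''
    · exact h' (lt_of_lt_of_le hz (min_le_right _ _))
    · exact h y' hy'' z (lt_of_lt_of_le hz (min_le_left _ _))

/-- characters separate points from closed subgroups -/
theorem exists_char_of_closed (N : Subgroup (WT b)) (hN : IsClosed (N : Set (WT b)))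
    (x : WT b) (hx : x ∉ N) : ∃ y : B, (∀ n ∈ N, ev b n y = 1) ∧ ev b x y ≠ 1 := by
  classical
  have h1 : IsOpen ((N : Set (WT b))ᶜ) := hN.isOpen_compl
  rw [WT.inducing.isOpen_iff] at h1
  obtain ⟨U, hU, hUN⟩ := h1
  have hxU : ev b x ∈ U := by
    have : x ∈ (ev b) ⁻¹' U := by
      rw [hUN]
      exact hx
    exact this
  obtain ⟨I, u, hu, hsub⟩ := isOpen_pi_iff.mp hU _ hxU
  obtain ⟨δ, hδ, hI⟩ := exists_delta hu
  -- the finitely many characters
  let φ : I → (WT b) →* Circle := fun i => (b.flip : B →* (A →* Circle)) i.1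
  obtain ⟨h, hh, hn, hx1⟩ := exists_char (A := WT b) (ι := I)
    ((b.flip : B →* (A →* Circle)).range) φ (fun i => ⟨i.1, rfl⟩) N x hδ (by
      intro y hy
      by_contra hcon
      push Not at hcon
      have h2 : ev b y ∈ U := by
        apply hsub
        intro i hi
        apply hI i hi
        have := hcon ⟨i, hi⟩
        rw [dist_comm] at this
        exact this
      have h3 : y ∈ (ev b) ⁻¹' U := h2
      rw [hUN] at h3
      exact h3 hy)
  obtain ⟨y, rfl⟩ := hh
  exact ⟨y, hn, hx1⟩

/-- the auxiliary pairing for graphs -/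
noncomputable def graphPair (b : A →* B →* Circle) :
    (A × Circle) →* (B × Multiplicative ℤ) →* Circle where
  toFun p :=
    { toFun := fun q => b p.1 q.1 * p.2 ^ (Multiplicative.toAdd q.2)
      map_one' := by simp
      map_mul' := by
        intro q q'
        simp only [Prod.fst_mul, Prod.snd_mul, map_mul, toAdd_mul, zpow_add]
        exact mul_mul_mul_comm _ _ _ _ }
  map_one' := by
    ext q
    simp
  map_mul' p p' := by
    ext q
    simp only [Prod.fst_mul, Prod.snd_mul, map_mul, MonoidHom.mul_apply, MonoidHom.coe_mk,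
      OneHom.coe_mk, mul_zpow]
    congr 1
    exact mul_mul_mul_comm _ _ _ _

theorem graphPair_apply (p : A × Circle) (q : B × Multiplicative ℤ) :
    graphPair b p q = b p.1 q.1 * p.2 ^ (Multiplicative.toAdd q.2) := rfl

theorem exists_root (d : ℤ) (hd : ¬ IsUnit d) : ∃ c : Circle, c ≠ 1 ∧ c ^ d = 1 := by
  rcases eq_or_ne d 0 with rfl | h0
  · refine ⟨Circle.exp Real.pi, ?_, by simp⟩
    rw [Ne, Circle.exp_eq_one]
    rintro ⟨n, hn⟩
    have h1 : (1 : ℝ) = n * 2 := by
      have := Real.pi_pos
      have h2 : Real.pi * 1 = Real.pi * (n * 2) := by linarith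
      exact mul_left_cancel₀ this.ne' h2
    have h2 : (1 : ℤ) = n * 2 := by exact_mod_cast h1
    omega
  · have hd' : (d : ℝ) ≠ 0 := by exact_mod_cast h0
    refine ⟨Circle.exp (2 * Real.pi / d), ?_, ?_⟩
    · rw [Ne, Circle.exp_eq_one]
      rintro ⟨n, hn⟩
      have h1 : (n : ℝ) * d = 1 := by
        have := Real.pi_pos
        field_simp at hn
        have h3 : Real.pi * 1 = Real.pi * (n * d) := by nlinarith
        have := mul_left_cancel₀ this.ne' h3
        linarith
      have h2 : n * d = 1 := by exact_mod_cast h1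
      exact hd (IsUnit.of_mul_eq_one_right n h2)
    · rw [← Circle.exp_zsmul]
      have : d • (2 * Real.pi / d) = 2 * Real.pi := by
        rw [zsmul_eq_mul]
        field_simp
      rw [this, Circle.exp_two_pi]

/-- Comfort–Ross: continuous characters come from `B` -/
theorem exists_of_continuous (χ : WT b →* Circle) (hχ : Continuous χ) :
    ∃ y : B, ∀ a : WT b, χ a = ev b a y := by
  let χA : A →* Circle := χ
  let ψA : (A × Circle) →* Circle :=
    (χA.comp (MonoidHom.fst A Circle)) / (MonoidHom.snd A Circle)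
  let ψ : WT (graphPair b) →* Circle := ψA
  have hψ : Continuous ψ := by
    have h1 : Continuous (fun p : WT (graphPair b) => (Prod.fst (p : A × Circle) : WT b)) := by
      rw [WT.continuous_iff]
      intro y
      have h2 := WT.continuous_apply (b := graphPair b) (y, 1)
      refine h2.congr fun p => ?_
      change b (Prod.fst (p : A × Circle)) y *
        (Prod.snd (p : A × Circle)) ^ (Multiplicative.toAdd (1 : Multiplicative ℤ)) = _
      rw [toAdd_one, zpow_zero, mul_one]
      rfl
    have h3 : Continuous (fun p : WT (graphPair b) => Prod.snd (p : A × Circle)) := by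
      have h2 := WT.continuous_apply (b := graphPair b) (1, Multiplicative.ofAdd 1)
      refine h2.congr fun p => ?_
      change b (Prod.fst (p : A × Circle)) 1 *
        (Prod.snd (p : A × Circle)) ^ (Multiplicative.toAdd (Multiplicative.ofAdd (1 : ℤ))) = _
      rw [toAdd_ofAdd, zpow_one, map_one, one_mul]
    exact (hχ.comp h1).div' h3
  have hN : IsClosed ((ψ.ker : Subgroup (WT (graphPair b))) : Set (WT (graphPair b))) := by
    have : ((ψ.ker : Subgroup (WT (graphPair b))) : Set (WT (graphPair b))) = ψ ⁻¹' {1} := by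
      ext p
      rw [SetLike.mem_coe, MonoidHom.mem_ker]
      rfl
    rw [this]
    exact isClosed_singleton.preimage hψ
  let toW : A × Circle → WT (graphPair b) := fun p => p
  have hker : ∀ a : A, toW (a, χA a) ∈ ψ.ker := by
    intro a
    refine MonoidHom.mem_ker.mpr ?_
    change χA a / χA a = 1
    exact div_self' _
  -- the group of exponents
  let S : AddSubgroup ℤ :=
    { carrier := {m | ∃ y : B, ∀ a : A, b a y * χA a ^ m = 1}
      zero_mem' := ⟨1, fun a => by simp⟩
      add_mem' := by
        rintro m m' ⟨y, hy⟩ ⟨y', hy'⟩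
        refine ⟨y * y', fun a => ?_⟩
        rw [map_mul, zpow_add, mul_mul_mul_comm, hy, hy', mul_one]
      neg_mem' := by
        rintro m ⟨y, hy⟩
        refine ⟨y⁻¹, fun a => ?_⟩
        rw [map_inv, zpow_neg, ← mul_inv, hy, inv_one] }
  have key : ∀ c : Circle, c ≠ 1 → ∃ m ∈ S, c ^ m ≠ 1 := by
    intro c hc
    obtain ⟨⟨y, m⟩, h1, h2⟩ := exists_char_of_closed (b := graphPair b) ψ.ker hN
      (toW (1, c)) (by
        intro h
        have h' : χA 1 / c = 1 := MonoidHom.mem_ker.mp h
        rw [map_one, div_eq_one] at h'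
        exact hc h'.symm)
    refine ⟨Multiplicative.toAdd m, ⟨y, fun a => h1 _ (hker a)⟩, ?_⟩
    have h2' : b 1 y * c ^ (Multiplicative.toAdd m) ≠ 1 := h2
    rw [map_one, MonoidHom.one_apply, one_mul] at h2'
    exact h2'
  obtain ⟨d, hd⟩ := Int.subgroup_cyclic S
  by_cases hu : IsUnit d
  · have h1 : (1 : ℤ) ∈ S := by
      rw [hd, AddSubgroup.mem_closure_singleton]
      rcases Int.isUnit_iff.mp hu with rfl | rfl
      · exact ⟨1, by simp⟩
      · exact ⟨-1, by simp⟩
    obtain ⟨y, hy⟩ := h1
    refine ⟨y⁻¹, fun a => ?_⟩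
    have h2 := hy a
    rw [zpow_one] at h2
    change χA a = b a y⁻¹
    rw [map_inv]
    exact eq_inv_of_mul_eq_one_right h2
  · obtain ⟨c, hc, hc'⟩ := exists_root d hu
    obtain ⟨m, hm, hm'⟩ := key c hc
    rw [hd, AddSubgroup.mem_closure_singleton] at hm
    obtain ⟨k, rfl⟩ := hm
    exfalso
    apply hm'
    rw [smul_eq_mul, mul_comm, zpow_mul, hc', one_zpow]

end Pool.Agent.Helper33.RSQ
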