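import Pool.Agent.Helper33.RSQ.Refl

set_option autoImplicit false

namespace Pool.Agent.Helper33.RSQ

open Set Topology Filter

/-- interpolation by characters excludes infinite compact sets -/
theorem finite_of_interp {A B : Type} [CommGroup A] [CommGroup B] (b : A →* B →* Circle)
    (H : ∀ s : ℕ → A, Function.Injective s → ∃ n : ℕ → ℕ, StrictMono n ∧
      ∀ g : A, ∃ k₀ : ℕ, ∃ y : B, ∀ k, ((b (s (n (k + k₀)) / g) y : Circle) : ℂ).re ≤ 0)
    (K : Set (WT b)) (hK : IsCompact K) : K.Finite := by
  by_contra hinf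
  rw [← Set.Infinite] at hinf
  let s : ℕ → WT b := fun k => (hinf.natEmbedding K k : WT b)
  have hs : Function.Injective s := fun a a' h => (hinf.natEmbedding K).injective (Subtype.ext h)
  have hsK : ∀ k, s k ∈ K := fun k => (hinf.natEmbedding K k).2
  obtain ⟨n, hn, h⟩ := H s hs
  obtain ⟨g, hgK, hg⟩ := hK.exists_mapClusterPt (u := fun k => s (n k)) (f := atTop)
    (by
      rw [le_principal_iff, mem_map]
      exact Filter.univ_mem' fun k => hsK _)
  obtain ⟨k₀, y, hy⟩ := h g
  let V : Set (WT b) := {a | 0 < ((ev b (a / g) y : Circle) : ℂ).re}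
  have hV : IsOpen V := by
    have h1 : Continuous fun a : WT b => ev b (a / g) y :=
      (WT.continuous_apply (b := b) y).comp (continuous_id.div' continuous_const)
    have h2 : Continuous fun a : WT b => ((ev b (a / g) y : Circle) : ℂ).re :=
      Complex.continuous_re.comp (continuous_subtype_val.comp h1)
    exact isOpen_lt continuous_const h2
  have hgV : g ∈ V := by
    change 0 < ((ev b (g / g) y : Circle) : ℂ).re
    rw [div_self', map_one, Pi.one_apply]
    simp
  have h1 : ∃ᶠ k in atTop, s (n k) ∈ V := hg.frequently (hV.mem_nhds hgV)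
  have h2 : ∀ᶠ k in atTop, s (n k) ∉ V := by
    filter_upwards [eventually_ge_atTop k₀] with k hk
    have h3 := hy (k - k₀)
    rw [Nat.sub_add_cancel hk] at h3
    exact not_lt.mpr h3
  obtain ⟨k, hk1, hk2⟩ := (h1.and_eventually h2).exists
  exact hk2 hk1

end Pool.Agent.Helper33.RSQ
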