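import Mathlib

set_option autoImplicit false

namespace Pool.Agent.Helper33.RSQ

/-- The natural map from a topological abelian group `G` to its bidual, as a homomorphism;
`PontryaginDual` is the group of continuous characters with the compact-open topology. -/
noncomputable def toBidual (G : Type) [CommGroup G] [TopologicalSpace G] [IsTopologicalGroup G] :
    G →* PontryaginDual (PontryaginDual G) where
  toFun g :=
    ({ toFun := fun χ => χ g
       map_one' := rfl
       map_mul' := fun _ _ => rfl
       continuous_toFun := ContinuousEvalConst.continuous_eval_const (F := G →ₜ* Circle) g } :
      PontryaginDual G →ₜ* Circle)
  map_one' := by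
    apply PontryaginDual.ext
    intro χ
    exact map_one χ
  map_mul' g h := by
    apply PontryaginDual.ext
    intro χ
    exact map_mul χ g h

/-- A topological abelian group is reflexive if the natural map to its bidual is an isomorphism
of topological groups. -/
def IsReflexive (G : Type) [CommGroup G] [TopologicalSpace G] [IsTopologicalGroup G] : Prop :=
  IsHomeomorph (toBidual G)

end Pool.Agent.Helper33.RSQ
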