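import Pool.Agent.Helper33.RSQ.Pair2

set_option autoImplicit false

namespace Pool.Agent.Helper33.RSQ

open Cardinal

variable (φ : Task → EE → ℝ)

/-- the real valued pairing -/
noncomputable def valR : FF →ₗ[ℤ] ℝ := Finsupp.linearCombination ℤ (fun p : Task × EE => φ p.1 p.2)

/-- the pairing with values in the circle -/
noncomputable def bp : Multiplicative GG →* Multiplicative HH →* Circle where
  toFun g :=
    { toFun := fun h => Circle.exp (2 * Real.pi *
        valR φ (pF (Multiplicative.toAdd g) (Multiplicative.toAdd h)))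
      map_one' := by
        rw [toAdd_one, map_zero, map_zero, mul_zero, Circle.exp_zero]
      map_mul' := by
        intro h h'
        rw [toAdd_mul, map_add, map_add, mul_add, Circle.exp_add] }
  map_one' := by
    ext h
    simp
  map_mul' g g' := by
    apply MonoidHom.ext
    intro h
    change Circle.exp (2 * Real.pi *
        valR φ (pF (Multiplicative.toAdd (g * g')) (Multiplicative.toAdd h))) =
      Circle.exp (2 * Real.pi * valR φ (pF (Multiplicative.toAdd g) (Multiplicative.toAdd h))) *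
      Circle.exp (2 * Real.pi * valR φ (pF (Multiplicative.toAdd g') (Multiplicative.toAdd h)))
    rw [toAdd_mul, map_add, LinearMap.add_apply, map_add, mul_add, Circle.exp_add]

theorem bp_apply (g : Multiplicative GG) (h : Multiplicative HH) :
    bp φ g h = Circle.exp (2 * Real.pi *
      valR φ (pF (Multiplicative.toAdd g) (Multiplicative.toAdd h))) := rfl

theorem bp_re (g : Multiplicative GG) (h : Multiplicative HH) :
    ((bp φ g h : Circle) : ℂ).re = Real.cos (2 * Real.pi *
      valR φ (pF (Multiplicative.toAdd g) (Multiplicative.toAdd h))) := by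
  rw [bp_apply, Circle.coe_exp, Complex.exp_ofReal_mul_I_re]

variable {φ} (h1 : ∀ i k, Real.cos (2 * Real.pi * lc (φ i) (i.1.2 k)) ≤ 0)
  (h2 : ∀ v : (Task × EE) →₀ ℤ, (∃ m : ℤ, lc (fun p => φ p.1 p.2) v = m) → v = 0)

include h2 in
theorem bp_eq_one {g : Multiplicative GG} {h : Multiplicative HH} :
    bp φ g h = 1 ↔ pF (Multiplicative.toAdd g) (Multiplicative.toAdd h) = 0 := by
  rw [bp_apply, Circle.exp_eq_one]
  constructor
  · rintro ⟨m, hm⟩
    apply h2
    refine ⟨m, ?_⟩
    have hpi := Real.pi_pos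
    have h3 : (2 * Real.pi) * valR φ (pF (Multiplicative.toAdd g) (Multiplicative.toAdd h)) =
        (2 * Real.pi) * m := by linarith
    exact mul_left_cancel₀ (by positivity) h3
  · intro h
    rw [h, map_zero]
    exact ⟨0, by simp⟩

theorem valR_map (τ : Task) (u : EE →₀ ℤ) :
    valR φ (u.mapDomain (fun e => (τ, e))) = lc (φ τ) u := by
  unfold valR lc
  rw [Finsupp.linearCombination_mapDomain]
  rfl

include h1 in
theorem interpG (s : ℕ → Multiplicative GG) (hs : Function.Injective s) :
    ∃ n : ℕ → ℕ, StrictMono n ∧ ∀ g : Multiplicative GG, ∃ k₀ : ℕ, ∃ y : Multiplicative HH,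
      ∀ k, ((bp φ (s (n (k + k₀)) / g) y : Circle) : ℂ).re ≤ 0 := by
  obtain ⟨n, hn, H⟩ := exists_good_subseq (fun k => Multiplicative.toAdd (s k))
    (fun a b h => hs (Multiplicative.toAdd.injective h))
  refine ⟨n, hn, fun g => ?_⟩
  obtain ⟨k₀, hk⟩ := H (Multiplicative.toAdd g)
  refine ⟨k₀, ?_⟩
  -- cover the supports
  have hc : (⋃ k, (((Multiplicative.toAdd (s (n (k + k₀))) - Multiplicative.toAdd g : GG)).support :
      Set Z)).Countable := Set.countable_iUnion fun k => Finset.countable_toSet _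
  obtain ⟨z, hz, hzQ⟩ := exists_cover hc
  have hu : ∀ k, ∃ u : ℕ →₀ ℤ, u.mapDomain z =
      Multiplicative.toAdd (s (n (k + k₀))) - Multiplicative.toAdd g := fun k =>
    exists_comap hz _ ((Set.subset_iUnion (fun k =>
      (((Multiplicative.toAdd (s (n (k + k₀))) - Multiplicative.toAdd g : GG)).support : Set Z))
        k).trans hzQ)
  choose u hu using hu
  have hgood : Good u := by
    rw [← good_mapDomain hz]
    simp only [hu]
    exact hk
  have hinj : Function.Injective (fun i : ℕ => ((i, ∅) : EE)) := fun a b h => congrArg Prod.fst h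
  have hgood' : Good (fun k => (u k).mapDomain (fun i : ℕ => ((i, ∅) : EE))) :=
    (good_mapDomain hinj u).mpr hgood
  let ξ := Infinite.natEmbedding Lam
  let τ : Task := ⟨(ξ, fun k => (u k).mapDomain (fun i : ℕ => ((i, ∅) : EE))), ξ.injective, hgood'⟩
  refine ⟨Multiplicative.ofAdd (Finsupp.single (Z.node z τ, ∅) 1), fun k => ?_⟩
  rw [bp_re, toAdd_div, toAdd_ofAdd, ← hu k, pF_node' hz τ]
  have h3 : (u k).mapDomain (fun i => (τ, ((i, ∅) : EE))) =
      ((u k).mapDomain (fun i : ℕ => ((i, ∅) : EE))).mapDomain (fun e => (τ, e)) := by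
    rw [← Finsupp.mapDomain_comp]
    rfl
  rw [h3, valR_map]
  exact h1 τ k

include h1 in
theorem interpH (s : ℕ → Multiplicative HH) (hs : Function.Injective s) :
    ∃ n : ℕ → ℕ, StrictMono n ∧ ∀ g : Multiplicative HH, ∃ k₀ : ℕ, ∃ y : Multiplicative GG,
      ∀ k, (((bp φ).flip (s (n (k + k₀)) / g) y : Circle) : ℂ).re ≤ 0 := by
  obtain ⟨n, hn, H⟩ := exists_good_subseq (fun k => Multiplicative.toAdd (s k))
    (fun a b h => hs (Multiplicative.toAdd.injective h))
  refine ⟨n, hn, fun g => ?_⟩
  obtain ⟨k₀, hk⟩ := H (Multiplicative.toAdd g)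
  refine ⟨k₀, ?_⟩
  have hc : (⋃ k, (((Multiplicative.toAdd (s (n (k + k₀))) - Multiplicative.toAdd g : HH)).support :
      Set (Z × Finset Lam))).Countable := Set.countable_iUnion fun k => Finset.countable_toSet _
  obtain ⟨z, ξ, hz, hzQ⟩ := exists_cover_H hc
  have hu : ∀ k, ∃ u : EE →₀ ℤ, u.mapDomain (embH z ξ) =
      Multiplicative.toAdd (s (n (k + k₀))) - Multiplicative.toAdd g := fun k =>
    exists_comap (embH_inj hz ξ) _ ((Set.subset_iUnion (fun k =>
      (((Multiplicative.toAdd (s (n (k + k₀))) - Multiplicative.toAdd g : HH)).support :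
        Set (Z × Finset Lam))) k).trans hzQ)
  choose u hu using hu
  have hgood : Good u := by
    rw [← good_mapDomain (embH_inj hz ξ)]
    simp only [hu]
    exact hk
  let τ : Task := ⟨(ξ, u), ξ.injective, hgood⟩
  refine ⟨Multiplicative.ofAdd (Finsupp.single (Z.node z τ) 1), fun k => ?_⟩
  rw [MonoidHom.flip_apply, bp_re, toAdd_div, toAdd_ofAdd, ← hu k, pF_node hz τ ξ rfl, valR_map]
  exact h1 τ k

theorem exists_letter {C : Set Lam} (hC : C.Countable) : ∃ a, a ∉ C := by
  by_contra hcon
  push Not at hcon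
  have h1 : C = Set.univ := Set.eq_univ_of_forall hcon
  rw [h1, ← Cardinal.le_aleph0_iff_set_countable, mk_univ] at hC
  have h2 : #Lam = continuum := by simp
  rw [h2] at hC
  exact absurd aleph0_lt_continuum (not_lt.mpr hC)

include h2 in
theorem divide (y : Multiplicative HH) (hy : y ≠ 1) (D : Set (Multiplicative GG))
    (hD : D.Countable) : ∃ y' : Multiplicative HH, (∃ a : Multiplicative GG, bp φ a y' ≠ 1) ∧
      (∀ a : Multiplicative GG, bp φ a y = 1 → bp φ a y' = 1) ∧ ∀ d ∈ D, bp φ d y' = 1 := by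
  classical
  let h : HH := Multiplicative.toAdd y
  have hh : h ≠ 0 := fun h0 => hy (Multiplicative.toAdd.injective h0)
  let C : Set Lam := (⋃ d ∈ D, ⋃ p ∈ (pF (Multiplicative.toAdd d) h).support,
    Set.range p.1.1.1) ∪ ⋃ q ∈ h.support, ((q.2 : Finset Lam) : Set Lam)
  have hC : C.Countable := by
    refine Set.Countable.union (hD.biUnion fun d _ => ?_) ?_
    · exact (Finset.countable_toSet _).biUnion fun p _ => Set.countable_range _
    · exact (Finset.countable_toSet _).biUnion fun q _ => Finset.countable_toSet _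
  obtain ⟨a, ha⟩ := exists_letter hC
  have ha1 : ∀ d ∈ D, ∀ p ∈ (pF (Multiplicative.toAdd d) h).support, a ∉ Set.range p.1.1.1 := by
    intro d hd p hp hap
    exact ha (Or.inl (Set.mem_biUnion hd (Set.mem_biUnion (s := ((pF (Multiplicative.toAdd d)
      h).support : Set (Task × EE))) hp hap)))
  have ha2 : ∀ q ∈ h.support, a ∉ q.2 := by
    intro q hq haq
    exact ha (Or.inr (Set.mem_biUnion (s := (h.support : Set (Z × Finset Lam))) hq haq))
  have hne : shH a h ≠ 0 := by
    intro h0
    apply hh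
    have hinj : Set.InjOn (fun q : Z × Finset Lam => (q.1, insert a q.2)) {q | a ∉ q.2} := by
      rintro ⟨z, B⟩ hB ⟨z', B'⟩ hB' hq
      have e1 : z = z' := congrArg Prod.fst hq
      have e2 : insert a B = insert a B' := congrArg Prod.snd hq
      have hB1 : a ∉ B := hB
      have hB1' : a ∉ B' := hB'
      rw [e1, ← Finset.erase_insert hB1, e2, Finset.erase_insert hB1']
    apply Finsupp.mapDomain_injOn {q : Z × Finset Lam | a ∉ q.2} hinj (x₁ := h) (x₂ := 0)
    · intro q hq
      exact ha2 q hq
    · simp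
    · rw [Finsupp.mapDomain_zero]
      exact h0
  refine ⟨Multiplicative.ofAdd (shH a h), ?_, ?_, ?_⟩
  · obtain ⟨g, hg⟩ := sepH _ hne
    refine ⟨Multiplicative.ofAdd g, ?_⟩
    rw [Ne, bp_eq_one h2]
    exact hg
  · intro g hg
    rw [bp_eq_one h2] at hg ⊢
    rw [toAdd_ofAdd, pF_shH, hg, map_zero]
  · intro d hd
    rw [bp_eq_one h2, toAdd_ofAdd, pF_shH]
    exact fop_kill a _ (ha1 d hd)

/-- the main theorem -/
theorem main : ∃ (G : Type) (_ : CommGroup G) (_ : TopologicalSpace G) (_ : IsTopologicalGroup G),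
    Infinite G ∧ IsReflexive G ∧
      ∀ N : Subgroup G, IsClosed (N : Set G) → TopologicalSpace.SeparableSpace (G ⧸ N) →
        N = ⊤ := by
  obtain ⟨φ, h1, h2⟩ := exists_phi (E := EE) (I := Task) card_task (fun τ => τ.1.2)
    (fun τ => τ.2.2)
  refine ⟨WT (bp φ), inferInstance, inferInstance, inferInstance, ?_, ?_, ?_⟩
  · change Infinite (Multiplicative GG)
    infer_instance
  · apply reflexive_of_pairing
    · exact finite_of_interp (bp φ) (interpG h1)
    · exact finite_of_interp (bp φ).flip (interpH h1)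
    · intro a ha
      obtain ⟨h, hh⟩ := sepG (Multiplicative.toAdd (a : Multiplicative GG))
        (fun h0 => ha (Multiplicative.toAdd.injective h0))
      refine ⟨Multiplicative.ofAdd h, ?_⟩
      intro h3
      exact hh ((bp_eq_one h2).mp h3)
  · intro N hN hs
    exact trivial_of_separable (bp φ) (divide h2) N hN hs

end Pool.Agent.Helper33.RSQ
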