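import Mathlib

set_option autoImplicit false

namespace Pool.Agent.Helper33.RSQ

variable {P Q : Type}

/-- sequences with a lacunary coordinate -/
def Good1 (t : ℕ → (P →₀ ℤ)) : Prop :=
  ∃ p, t 0 p ≠ 0 ∧ ∀ k, 16 * |t k p| ≤ |t (k + 1) p|

/-- triangular sequences -/
def Good2 (t : ℕ → (P →₀ ℤ)) : Prop :=
  ∃ p : ℕ → P, ∀ k, t k (p k) ≠ 0 ∧ ∀ l < k, t l (p k) = 0

/-- good sequences -/
def Good (t : ℕ → (P →₀ ℤ)) : Prop := Good1 t ∨ Good2 t

theorem good_mapDomain {f : P → Q} (hf : Function.Injective f) (t : ℕ → (P →₀ ℤ)) :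
    Good (fun k => (t k).mapDomain f) ↔ Good t := by
  have hr : ∀ (u : P →₀ ℤ) (q : Q), u.mapDomain f q ≠ 0 → ∃ p, f p = q := by
    intro u q h
    by_contra hcon
    push Not at hcon
    apply h
    apply Finsupp.mapDomain_of_notMem_range
    rintro ⟨p, hp⟩
    exact hcon p hp
  constructor
  · rintro (⟨q, h0, h1⟩ | ⟨q, h⟩)
    · obtain ⟨p, rfl⟩ := hr _ q h0
      left
      refine ⟨p, ?_, fun k => ?_⟩
      · rwa [Finsupp.mapDomain_apply hf] at h0
      · have := h1 k
        rwa [Finsupp.mapDomain_apply hf, Finsupp.mapDomain_apply hf] at this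
    · have h2 : ∀ k, ∃ p, f p = q k := fun k => hr _ _ (h k).1
      choose p hp using h2
      right
      refine ⟨p, fun k => ⟨?_, fun l hl => ?_⟩⟩
      · have := (h k).1
        rwa [← hp, Finsupp.mapDomain_apply hf] at this
      · have := (h k).2 l hl
        rwa [← hp, Finsupp.mapDomain_apply hf] at this
  · rintro (⟨p, h0, h1⟩ | ⟨p, h⟩)
    · left
      refine ⟨f p, ?_, fun k => ?_⟩
      · rwa [Finsupp.mapDomain_apply hf]
      · rw [Finsupp.mapDomain_apply hf, Finsupp.mapDomain_apply hf]
        exact h1 k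
    · right
      refine ⟨fun k => f (p k), fun k => ⟨?_, fun l hl => ?_⟩⟩
      · rw [Finsupp.mapDomain_apply hf]
        exact (h k).1
      · rw [Finsupp.mapDomain_apply hf]
        exact (h k).2 l hl

/-- iteration of a successor choice -/
theorem exists_iter (next : ℕ → ℕ) (hnext : ∀ N, N < next N) :
    ∃ m : ℕ → ℕ, StrictMono m ∧ ∀ k, m (k + 1) = next (m k) :=
  ⟨fun k => Nat.rec 0 (fun _ x => next x) k, strictMono_nat_of_lt_succ fun _ => hnext _,
    fun _ => rfl⟩

/-- every injective sequence has a subsequence all of whose translates are eventually good -/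
theorem exists_good_subseq (s : ℕ → (P →₀ ℤ)) (hs : Function.Injective s) :
    ∃ n : ℕ → ℕ, StrictMono n ∧ ∀ g : P →₀ ℤ, ∃ k₀, Good (fun k => s (n (k + k₀)) - g) := by
  classical
  by_cases hu : ∃ p, ∀ M : ℤ, ∃ n, M < |s n p|
  · obtain ⟨p, hp⟩ := hu
    have h1 : ∀ N : ℕ, ∃ n, N < n ∧ 32 * |s N p| + 1 ≤ |s n p| := by
      intro N
      obtain ⟨M, hM⟩ : ∃ M : ℤ, ∀ n ≤ N, |s n p| ≤ M := by
        refine ⟨∑ n ∈ Finset.range (N + 1), |s n p|, fun n hn => ?_⟩
        exact Finset.single_le_sum (f := fun n => |s n p|) (fun i _ => abs_nonneg _)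
          (Finset.mem_range.mpr (Nat.lt_succ_of_le hn))
      obtain ⟨n, hn⟩ := hp (max M (32 * |s N p|))
      have hn1 := lt_of_le_of_lt (le_max_left _ _) hn
      have hn2 := lt_of_le_of_lt (le_max_right _ _) hn
      refine ⟨n, ?_, by omega⟩
      by_contra hcon
      have := hM n (not_lt.mp hcon)
      omega
    choose next hnext using h1
    obtain ⟨m, hm, hm1⟩ := exists_iter next fun N => (hnext N).1
    have hgrow : ∀ k, 32 * |s (m k) p| + 1 ≤ |s (m (k + 1)) p| := by
      intro k
      rw [hm1]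
      exact (hnext (m k)).2
    have hlow : ∀ k : ℕ, (k : ℤ) ≤ |s (m k) p| := by
      intro k
      induction k with
      | zero => simp
      | succ k ih =>
        have := hgrow k
        have h2 := abs_nonneg (s (m k) p)
        push_cast
        omega
    refine ⟨m, hm, fun g => ⟨(4 * |g p| + 1).toNat, Or.inl ⟨p, ?_, fun k => ?_⟩⟩⟩
    · have h3 := hlow (0 + (4 * |g p| + 1).toNat)
      have h4 := abs_nonneg (g p)
      simp only [Finsupp.coe_sub, Pi.sub_apply]
      intro h5
      have h6 : s (m (0 + (4 * |g p| + 1).toNat)) p = g p := sub_eq_zero.mp h5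
      rw [h6] at h3
      push_cast at h3
      rw [Int.toNat_of_nonneg (by omega)] at h3
      omega
    · have h3 := hlow (k + (4 * |g p| + 1).toNat)
      have h4 := abs_nonneg (g p)
      have h5 := hgrow (k + (4 * |g p| + 1).toNat)
      simp only [Finsupp.coe_sub, Pi.sub_apply]
      have e : k + 1 + (4 * |g p| + 1).toNat = k + (4 * |g p| + 1).toNat + 1 := by ring
      rw [e]
      have h6 := abs_sub (s (m (k + (4 * |g p| + 1).toNat)) p) (g p)
      have h7 := abs_sub_abs_le_abs_sub (s (m (k + (4 * |g p| + 1).toNat + 1)) p) (g p)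
      push_cast at h3
      rw [Int.toNat_of_nonneg (by omega)] at h3
      omega
  · push Not at hu
    choose M hM using hu
    have hfin : ∀ F : Finset P, {n | (s n).support ⊆ F}.Finite := by
      intro F
      have h1 : ((F.finsupp fun p => Finset.Icc (-M p) (M p) : Finset (P →₀ ℤ)) :
          Set (P →₀ ℤ)).Finite := Finset.finite_toSet _
      refine (h1.preimage hs.injOn).subset ?_
      intro n hn
      simp only [Set.mem_preimage, Finset.mem_coe, Finset.mem_finsupp_iff]
      exact ⟨hn, fun p _ => Finset.mem_Icc.mpr (abs_le.mp (hM p n))⟩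
    have h1 : ∀ N : ℕ, ∃ n, N < n ∧ ∃ p, s n p ≠ 0 ∧ ∀ l ≤ N, s l p = 0 := by
      intro N
      let F : Finset P := (Finset.range (N + 1)).biUnion fun l => (s l).support
      obtain ⟨b, hb⟩ := (hfin F).bddAbove
      have h2 : ¬ (s (max b N + 1)).support ⊆ F := by
        intro h
        have := hb h
        have := le_max_left b N
        omega
      rw [Finset.not_subset] at h2
      obtain ⟨p, hp1, hp2⟩ := h2
      refine ⟨max b N + 1, by have := le_max_right b N; omega, p,
        Finsupp.mem_support_iff.mp hp1, fun l hl => ?_⟩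
      by_contra hcon
      exact hp2 (Finset.mem_biUnion.mpr ⟨l, Finset.mem_range.mpr (by omega),
        Finsupp.mem_support_iff.mpr hcon⟩)
    choose next hnext pt hpt using h1
    obtain ⟨m, hm, hm1⟩ := exists_iter next hnext
    have hp1 : ∀ k, s (m (k + 1)) (pt (m k)) ≠ 0 := fun k => by
      rw [hm1]
      exact (hpt (m k)).1
    have hp2 : ∀ k, ∀ l < k, s (m (l + 1)) (pt (m k)) = 0 := fun k l hl =>
      (hpt (m k)).2 _ (hm.monotone hl)
    have hinj : Function.Injective fun k => pt (m k) := by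
      intro k l hkl
      have hkl' : pt (m k) = pt (m l) := hkl
      rcases lt_trichotomy k l with h | h | h
      · exact absurd (hkl' ▸ hp2 l k h) (hp1 k)
      · exact h
      · exact absurd (hkl' ▸ hp2 k l h) (hp1 l)
    refine ⟨fun k => m (k + 1), fun a b hab => hm (by omega), fun g => ?_⟩
    have hg : {k | pt (m k) ∈ g.support}.Finite :=
      (Finset.finite_toSet g.support).preimage hinj.injOn
    obtain ⟨b, hb⟩ := hg.bddAbove
    have hg0 : ∀ k, g (pt (m (k + (b + 1)))) = 0 := by
      intro k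
      by_contra hcon
      have := hb (show k + (b + 1) ∈ {k | pt (m k) ∈ g.support} from
        Finsupp.mem_support_iff.mpr hcon)
      omega
    refine ⟨b + 1, Or.inr ⟨fun k => pt (m (k + (b + 1))), fun k => ⟨?_, fun l hl => ?_⟩⟩⟩
    · simp only [Finsupp.coe_sub, Pi.sub_apply]
      rw [hg0, sub_zero]
      exact hp1 _
    · simp only [Finsupp.coe_sub, Pi.sub_apply]
      rw [hg0, sub_zero]
      exact hp2 _ _ (by omega)

end Pool.Agent.Helper33.RSQ
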