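import Mathlib

set_option autoImplicit false

namespace Pool.Agent.Helper33.RSQ

open Filter Topology

/-- lacunary interpolation -/
theorem exists_lacunary (a c : ℕ → ℝ) (h0 : a 0 ≠ 0) (ha : ∀ k, 16 * |a k| ≤ |a (k + 1)|) :
    ∃ x : ℝ, ∀ k, ∃ m : ℤ, |a k * x - c k - m| ≤ 1 / 16 := by
  have hne : ∀ k, 0 < |a k| := by
    intro k
    induction k with
    | zero => exact abs_pos.mpr h0
    | succ k ih => linarith [ha k]
  have hne' : ∀ k, a k ≠ 0 := fun k => abs_pos.mp (hne k)
  let step : ℕ → ℝ → ℝ := fun k x =>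
    x + (c k + round (a k * x - c k) - a k * x) / a k
  have hstep : ∀ k x, a k * step k x = c k + round (a k * x - c k) := by
    intro k x
    change a k * (x + (c k + round (a k * x - c k) - a k * x) / a k) = _
    rw [mul_add, mul_div_cancel₀ _ (hne' k)]
    ring
  have hstep' : ∀ k x, |step k x - x| ≤ (1 / 2) / |a k| := by
    intro k x
    change |x + (c k + round (a k * x - c k) - a k * x) / a k - x| ≤ _
    rw [add_sub_cancel_left, abs_div]
    apply div_le_div_of_nonneg_right _ (abs_nonneg _)
    have := abs_sub_round (a k * x - c k)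
    rw [abs_sub_comm] at this
    have e : c k + ↑(round (a k * x - c k)) - a k * x =
        ↑(round (a k * x - c k)) - (a k * x - c k) := by ring
    rw [e]
    exact this
  let y : ℕ → ℝ := fun k => Nat.rec (step 0 0) (fun n x => step (n + 1) x) k
  have hy : ∀ k, y (k + 1) = step (k + 1) (y k) := fun k => rfl
  have hint : ∀ k, ∃ m : ℤ, a k * y k = c k + m := by
    intro k
    cases k with
    | zero => exact ⟨_, hstep 0 0⟩
    | succ k => exact ⟨_, hstep (k + 1) (y k)⟩
  have hgrow : ∀ k i, 16 ^ i * |a k| ≤ |a (k + i)| := by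
    intro k i
    induction i with
    | zero => simp
    | succ i ih =>
      have := ha (k + i)
      rw [pow_succ]
      calc 16 ^ i * 16 * |a k| = 16 * (16 ^ i * |a k|) := by ring
        _ ≤ 16 * |a (k + i)| := by linarith
        _ ≤ |a (k + (i + 1))| := this
  have hd : ∀ k i, dist (y (k + i)) (y (k + i + 1)) ≤ (1 / 32 / |a k|) * (1 / 16) ^ i := by
    intro k i
    rw [dist_comm, Real.dist_eq, hy]
    refine (hstep' _ _).trans ?_
    have h1 := hgrow k (i + 1)
    have h2 := hne k
    have h3 : (0 : ℝ) < 16 ^ (i + 1) * |a k| := by positivity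
    calc (1 / 2) / |a (k + i + 1)| ≤ (1 / 2) / (16 ^ (i + 1) * |a k|) :=
          div_le_div_of_nonneg_left (by norm_num) h3 h1
      _ = (1 / 32 / |a k|) * (1 / 16) ^ i := by
          have h4 : ((1 : ℝ) / 16) ^ i * 16 ^ i = 1 := by
            rw [← mul_pow]
            norm_num
          have h5 : (16 : ℝ) ^ i ≠ 0 := by positivity
          rw [pow_succ, eq_div_of_mul_eq h5 h4]
          field_simp
          norm_num
  have hcau : CauchySeq y := by
    apply cauchySeq_of_le_geometric (1 / 16) (1 / 32 / |a 0|) (by norm_num)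
    intro n
    have := hd 0 n
    rw [zero_add] at this
    exact this
  obtain ⟨x, hx⟩ := cauchySeq_tendsto_of_complete hcau
  refine ⟨x, fun k => ?_⟩
  have h1 : dist (y (k + 0)) x ≤ (1 / 32 / |a k|) * (1 / 16) ^ 0 / (1 - 1 / 16) := by
    apply dist_le_of_le_geometric_of_tendsto (f := fun i => y (k + i)) (1 / 16)
      (1 / 32 / |a k|) (by norm_num)
    · intro n
      exact hd k n
    · have : Tendsto (fun i => k + i) atTop atTop := tendsto_atTop_mono (fun i => Nat.le_add_left i k) tendsto_id
      exact hx.comp this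
  obtain ⟨m, hm⟩ := hint k
  refine ⟨m, ?_⟩
  have h2 : a k * x - c k - m = a k * (x - y k) := by
    rw [mul_sub, hm]
    ring
  rw [h2, abs_mul]
  rw [add_zero, dist_comm, Real.dist_eq] at h1
  have h3 := hne k
  calc |a k| * |x - y k| ≤ |a k| * ((1 / 32 / |a k|) * (1 / 16) ^ 0 / (1 - 1 / 16)) :=
        mul_le_mul_of_nonneg_left h1 h3.le
    _ = 1 / 30 := by
        field_simp
        norm_num
    _ ≤ 1 / 16 := by norm_num

/-- many lacunary solutions: an injection of the Cantor set into the solutions -/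
theorem many_lacunary (a γ : ℕ → ℝ) (h0 : a 0 ≠ 0) (ha : ∀ k, 16 * |a k| ≤ |a (k + 1)|) :
    ∃ f : (ℕ → Bool) → ℝ, Function.Injective f ∧
      ∀ b k, Real.cos (2 * Real.pi * (a k * f b + γ k)) ≤ 0 := by
  have h : ∀ b : ℕ → Bool, ∃ x : ℝ, ∀ k, ∃ m : ℤ,
      |a k * x - ((if b k then 3 / 8 else 5 / 8) - γ k) - m| ≤ 1 / 16 := fun b =>
    exists_lacunary a (fun k => (if b k then 3 / 8 else 5 / 8) - γ k) h0 ha
  choose f hf using h
  refine ⟨f, ?_, ?_⟩
  · intro b b' hbb
    funext k
    by_contra hne
    obtain ⟨m, hm⟩ := hf b k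
    obtain ⟨m', hm'⟩ := hf b' k
    rw [← hbb] at hm'
    have key : |((if b k then (3 / 8 : ℝ) else 5 / 8) + m) -
        ((if b' k then (3 / 8 : ℝ) else 5 / 8) + m')| ≤ 1 / 8 := by
      rw [abs_le] at hm hm' ⊢
      constructor <;> linarith [hm.1, hm.2, hm'.1, hm'.2]
    have key2 : ∀ n : ℤ, ¬ |(1 / 4 : ℝ) + n| ≤ 1 / 8 := by
      intro n hn
      rw [abs_le] at hn
      have h1 : (-1 : ℝ) < n := by linarith [hn.1]
      have h2 : (n : ℝ) < 0 := by linarith [hn.2]
      have h3 : (-1 : ℤ) < n := by exact_mod_cast h1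
      have h4 : n < (0 : ℤ) := by exact_mod_cast h2
      omega
    cases hb : b k <;> cases hb' : b' k
    · exact hne (by rw [hb, hb'])
    · rw [hb, hb'] at key
      simp only [Bool.false_eq_true, if_false, if_true] at key
      apply key2 (m - m')
      push_cast
      refine le_of_eq_of_le ?_ key
      congr 1
      ring
    · rw [hb, hb'] at key
      simp only [Bool.false_eq_true, if_false, if_true] at key
      apply key2 (m' - m)
      push_cast
      rw [abs_sub_comm] at key
      refine le_of_eq_of_le ?_ key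
      congr 1
      ring
    · exact hne (by rw [hb, hb'])
  · intro b k
    obtain ⟨m, hm⟩ := hf b k
    have h1 : Real.cos (2 * Real.pi * (a k * f b + γ k)) =
        Real.cos (2 * Real.pi * (a k * f b + γ k - m)) := by
      have : 2 * Real.pi * (a k * f b + γ k - m) =
          2 * Real.pi * (a k * f b + γ k) - m * (2 * Real.pi) := by ring
      rw [this, Real.cos_sub_int_mul_two_pi]
    rw [h1]
    have h2 : 1 / 4 ≤ a k * f b + γ k - m ∧ a k * f b + γ k - m ≤ 3 / 4 := by
      rw [abs_le] at hm
      cases hb : b k <;> rw [hb] at hm <;>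
        simp only [Bool.false_eq_true, if_false, if_true] at hm <;>
        constructor <;> linarith [hm.1, hm.2]
    have hpi := Real.pi_pos
    apply Real.cos_nonpos_of_pi_div_two_le_of_le
    · nlinarith [h2.1]
    · nlinarith [h2.2]

end Pool.Agent.Helper33.RSQ
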