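import Mathlib

set_option autoImplicit false

namespace Pool.Agent.Helper33.RSQ

/-- A topological abelian group `G` is reflexive if the evaluation map `g ↦ (χ ↦ χ g)` is an
isomorphism of topological groups from `G` onto its bidual; `PontryaginDual` is the group of
continuous characters with the compact-open topology. -/
def IsReflexiveGroup (G : Type) [CommGroup G] [TopologicalSpace G] : Prop :=
  ∃ e : G ≃ₜ* PontryaginDual (PontryaginDual G),
    ∀ (g : G) (χ : PontryaginDual G), e g χ = χ g

/-- A topological group is precompact if finitely many translates of each neighbourhood of the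
identity cover it. -/
def IsPrecompactGroup (G : Type) [CommGroup G] [TopologicalSpace G] : Prop :=
  ∀ U ∈ nhds (1 : G), ∃ F : Set G, F.Finite ∧ ∀ x : G, ∃ f ∈ F, ∃ u ∈ U, x = f * u

end Pool.Agent.Helper33.RSQ
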