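import Pool.Agent.Helper33.RSQ.Precompact
import Pool.Agent.Helper33.RSQ.RDefs

set_option autoImplicit false

namespace Pool.Agent.Helper33.RSQ

open scoped Pointwise Topology

theorem last : ∃ (G : Type) (_ : CommGroup G) (_ : TopologicalSpace G) (_ : IsTopologicalGroup G),
    Infinite G ∧ IsReflexiveGroup G ∧ IsPrecompactGroup G ∧
      ∀ N : Subgroup G, IsClosed (N : Set G) →
        TopologicalSpace.SeparableSpace (G ⧸ N) → N = ⊤ := by
  obtain ⟨G, i1, i2, i3, h1, h2, h3, h4⟩ := main_precompact
  refine ⟨G, i1, i2, i3, h1, ?_, ?_, h4⟩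
  · have h : IsHomeomorph (toBidual G) := h2
    refine ⟨{ toMulEquiv := MulEquiv.ofBijective (toBidual G) h.bijective
              continuous_toFun := h.continuous
              continuous_invFun := ?_ }, fun g χ => rfl⟩
    have h5 := h.homeomorph.symm.continuous
    exact h5
  · intro U hU
    obtain ⟨F, hF, hFU⟩ := h3 U hU
    refine ⟨F, hF, fun x => ?_⟩
    have hx : x ∈ F * U := by
      rw [hFU]
      trivial
    obtain ⟨f, hf, u, hu, e⟩ := Set.mem_mul.mp hx
    exact ⟨f, hf, u, hu, e.symm⟩

end Pool.Agent.Helper33.RSQ
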