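import Pool.Agent.Helper33.RSQ.Trans

set_option autoImplicit false

namespace Pool.Agent.Helper33.RSQ

open Cardinal

/-- letters -/
abbrev Lam := ℕ → Bool

/-- coordinates of a stage -/
abbrev EE := ℕ × Finset ℕ

/-- stages -/
abbrev Task := {p : (ℕ → Lam) × (ℕ → (EE →₀ ℤ)) // Function.Injective p.1 ∧ Good p.2}

theorem card_task : #Task ≤ continuum := by
  refine (mk_subtype_le _).trans ?_
  rw [mk_prod, Cardinal.lift_id, Cardinal.lift_id]
  refine mul_le_of_le aleph0_le_continuum ?_ ?_
  · simp
  · have h1 : #(EE →₀ ℤ) ≤ continuum :=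
      (mk_le_aleph0_iff.mpr inferInstance).trans aleph0_le_continuum
    have h2 : #(ℕ → (EE →₀ ℤ)) = #(EE →₀ ℤ) ^ (#ℕ) := by simp
    rw [h2, mk_nat]
    calc #(EE →₀ ℤ) ^ aleph0 ≤ continuum ^ aleph0 := Cardinal.power_le_power_right h1
      _ = continuum := continuum_power_aleph0

/-- the module in which the pairing takes its values -/
abbrev FF := (Task × EE) →₀ ℤ

open Classical in
/-- the operator of a finite set of letters, on the basis -/
noncomputable def fbas (B : Finset Lam) (p : Task × EE) : FF :=
  if (B : Set Lam) ⊆ Set.range p.1.1.1 then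
    Finsupp.single (p.1, (p.2.1, p.2.2 ∪ B.preimage p.1.1.1 p.1.2.1.injOn)) 1
  else 0

/-- the operator of a finite set of letters -/
noncomputable def fop (B : Finset Lam) : FF →ₗ[ℤ] FF := Finsupp.linearCombination ℤ (fbas B)

theorem fop_single (B : Finset Lam) (p : Task × EE) :
    fop B (Finsupp.single p 1) = fbas B p := by
  unfold fop
  rw [Finsupp.linearCombination_single, one_smul]

open Classical in
theorem fop_fop (a : Lam) (B : Finset Lam) : (fop {a}) ∘ₗ (fop B) = fop (insert a B) := by
  ext1 p
  apply LinearMap.ext_ring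
  simp only [LinearMap.comp_apply, Finsupp.lsingle_apply]
  rw [fop_single, fop_single]
  unfold fbas
  by_cases hB : (B : Set Lam) ⊆ Set.range p.1.1.1
  · rw [if_pos hB, fop_single]
    unfold fbas
    by_cases ha : a ∈ Set.range p.1.1.1
    · rw [if_pos (by simpa using ha), if_pos (by
        rw [Finset.coe_insert]
        exact Set.insert_subset ha hB)]
      congr 2
      ext i
      · rfl
      · simp only [Finset.mem_union, Finset.mem_preimage, Finset.mem_singleton,
          Finset.mem_insert]
        tauto
    · rw [if_neg (by simpa using ha), if_neg (by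
        intro h
        apply ha
        apply h
        simp)]
  · rw [if_neg hB, map_zero, if_neg (by
      intro h
      apply hB
      exact (Finset.coe_subset.mpr (Finset.subset_insert a B)).trans h)]

theorem fop_empty : fop ∅ = LinearMap.id := by
  classical
  ext1 p
  apply LinearMap.ext_ring
  simp only [LinearMap.comp_apply, Finsupp.lsingle_apply, LinearMap.id_apply]
  rw [fop_single]
  unfold fbas
  rw [if_pos (by simp)]
  simp

/-- a letter outside all sequences kills -/
theorem fop_kill (a : Lam) (v : FF) (h : ∀ p ∈ v.support, a ∉ Set.range p.1.1.1) :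
    fop {a} v = 0 := by
  unfold fop
  rw [Finsupp.linearCombination_apply, Finsupp.sum]
  apply Finset.sum_eq_zero
  intro p hp
  have : fbas {a} p = 0 := by
    unfold fbas
    rw [if_neg]
    intro h1
    exact h p hp (h1 (by simp))
  rw [this, smul_zero]

/-- indices -/
inductive Z : Type
  | leaf : Z
  | node : (ℕ → Z) → Task → Z

/-- children -/
def Z.child (z : Z) : Z → Prop
  | Z.leaf => False
  | Z.node s _ => ∃ i, s i = z

theorem child_wf : WellFounded Z.child := by
  constructor
  intro x
  induction x with
  | leaf => exact ⟨_, fun z h => h.elim⟩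
  | node s τ ih =>
    constructor
    rintro z ⟨i, rfl⟩
    exact ih i

theorem not_child {x y : Z} (h : Z.child x y) : ¬ Z.child y x :=
  child_wf.asymmetric _ _ h

open Classical in
/-- half of the matrix -/
noncomputable def part' : Z → Z → FF
  | Z.leaf, _ => 0
  | Z.node s τ, y => if h : ∃ i, s i = y then Finsupp.single (τ, (h.choose, ∅)) 1 else 0

theorem part_eq_zero {x y : Z} (h : ¬ Z.child y x) : part' x y = 0 := by
  cases x with
  | leaf => rfl
  | node s τ =>
    unfold part'
    exact dif_neg h

theorem part_node {s : ℕ → Z} (hs : Function.Injective s) (τ : Task) (i : ℕ) :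
    part' (Z.node s τ) (s i) = Finsupp.single (τ, (i, ∅)) 1 := by
  have h : ∃ j, s j = s i := ⟨i, rfl⟩
  refine (dif_pos h).trans ?_
  rw [hs h.choose_spec]

/-- the matrix -/
noncomputable def mat (x y : Z) : FF := part' x y + part' y x

theorem mat_node {s : ℕ → Z} (hs : Function.Injective s) (τ : Task) (i : ℕ) :
    mat (Z.node s τ) (s i) = Finsupp.single (τ, (i, ∅)) 1 := by
  unfold mat
  rw [part_node hs, part_eq_zero, add_zero]
  exact not_child ⟨i, rfl⟩

theorem mat_node' {s : ℕ → Z} (hs : Function.Injective s) (τ : Task) (i : ℕ) :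
    mat (s i) (Z.node s τ) = Finsupp.single (τ, (i, ∅)) 1 := by
  unfold mat
  rw [part_node hs, part_eq_zero, zero_add]
  exact not_child ⟨i, rfl⟩

/-- the two groups -/
abbrev GG := Z →₀ ℤ
abbrev HH := (Z × Finset Lam) →₀ ℤ

/-- the pairing with values in `FF` -/
noncomputable def pF : GG →ₗ[ℤ] HH →ₗ[ℤ] FF :=
  Finsupp.linearCombination ℤ (fun x : Z =>
    (Finsupp.linearCombination ℤ (fun q : Z × Finset Lam => fop q.2 (mat x q.1)) : HH →ₗ[ℤ] FF))

theorem pF_single (x : Z) (q : Z × Finset Lam) :
    pF (Finsupp.single x 1) (Finsupp.single q 1) = fop q.2 (mat x q.1) := by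
  unfold pF
  rw [Finsupp.linearCombination_single, one_smul, Finsupp.linearCombination_single, one_smul]

open Classical in
/-- the action of a letter on `HH` -/
noncomputable def shH (a : Lam) : HH →ₗ[ℤ] HH :=
  Finsupp.lmapDomain ℤ ℤ (fun q : Z × Finset Lam => (q.1, insert a q.2))

theorem pF_shH (a : Lam) (g : GG) (h : HH) : pF g (shH a h) = fop {a} (pF g h) := by
  classical
  have key : ∀ x : Z, (pF (Finsupp.single x 1)) ∘ₗ (shH a) =
      (fop {a}) ∘ₗ (pF (Finsupp.single x 1)) := by
    intro x
    ext1 q
    apply LinearMap.ext_ring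
    simp only [LinearMap.comp_apply, Finsupp.lsingle_apply]
    unfold shH
    rw [Finsupp.lmapDomain_apply, Finsupp.mapDomain_single, pF_single, pF_single,
      ← LinearMap.comp_apply, fop_fop]
  have key2 : pF.compl₂ (shH a) = pF.compr₂ (fop {a}) := by
    ext1 x
    apply LinearMap.ext_ring
    exact key x
  exact LinearMap.congr_fun (LinearMap.congr_fun key2 g) h

end Pool.Agent.Helper33.RSQ
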