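import Pool.Agent.Helper33.RSQ.Pair
import Pool.Agent.Helper33.RSQ.Comp

set_option autoImplicit false

namespace Pool.Agent.Helper33.RSQ

open Cardinal

/-- a good sequence exists -/
theorem exists_good : ∃ t : ℕ → (EE →₀ ℤ), Good t := by
  refine ⟨fun k => Finsupp.single (0, ∅) (16 ^ k), Or.inl ⟨(0, ∅), ?_, fun k => ?_⟩⟩
  · simp
  · simp only [Finsupp.single_eq_same]
    rw [pow_succ, abs_mul, mul_comm]
    simp

theorem exists_task (ξ : ℕ → Lam) (hξ : Function.Injective ξ) : ∃ τ : Task, τ.1.1 = ξ := by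
  obtain ⟨t, ht⟩ := exists_good
  exact ⟨⟨(ξ, t), hξ, ht⟩, rfl⟩

/-- countable subsets are covered by injective sequences -/
theorem exists_cover {X : Type} [Infinite X] {Q : Set X} (hQ : Q.Countable) :
    ∃ s : ℕ → X, Function.Injective s ∧ Q ⊆ Set.range s := by
  let T : Set X := Q ∪ Set.range (Infinite.natEmbedding X)
  have hT : T.Countable := hQ.union (Set.countable_range _)
  have hT' : T.Infinite :=
    (Set.infinite_range_of_injective (Infinite.natEmbedding X).injective).mono
      Set.subset_union_right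
  obtain ⟨hd⟩ := Set.countable_infinite_iff_nonempty_denumerable.mp ⟨hT, hT'⟩
  refine ⟨fun n => ((Denumerable.eqv T).symm n : X), ?_, ?_⟩
  · intro a b h
    exact (Denumerable.eqv T).symm.injective (Subtype.ext h)
  · intro x hx
    have hxT : x ∈ T := Or.inl hx
    exact ⟨Denumerable.eqv T ⟨x, hxT⟩,
      congrArg Subtype.val ((Denumerable.eqv T).symm_apply_apply ⟨x, hxT⟩)⟩

instance : Nonempty Task := by
  obtain ⟨τ, _⟩ := exists_task (Infinite.natEmbedding Lam) (Infinite.natEmbedding Lam).injective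
  exact ⟨τ⟩

instance : Infinite Z := by
  let f : ℕ → Z := fun n => Nat.rec Z.leaf (fun _ z => Z.node (fun _ => z) (Classical.arbitrary Task)) n
  have hf : ∀ n, f (n + 1) = Z.node (fun _ => f n) (Classical.arbitrary Task) := fun n => rfl
  apply Infinite.of_injective f
  intro n
  induction n with
  | zero =>
    intro m h
    cases m with
    | zero => rfl
    | succ m =>
      rw [hf] at h
      exact absurd h (by intro h; cases h)
  | succ n ih =>
    intro m h
    cases m with
    | zero =>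
      rw [hf] at h
      exact absurd h (by intro h; cases h)
    | succ m =>
      rw [hf, hf] at h
      have h1 := (Z.node.inj h).1
      rw [ih (congrFun h1 0)]

/-- the embedding of the coordinates -/
def embH (s : ℕ → Z) (ξ : ℕ ↪ Lam) (e : EE) : Z × Finset Lam := (s e.1, e.2.map ξ)

theorem embH_inj {s : ℕ → Z} (hs : Function.Injective s) (ξ : ℕ ↪ Lam) :
    Function.Injective (embH s ξ) := by
  rintro ⟨i, A⟩ ⟨j, B⟩ h
  have h1 := hs (congrArg Prod.fst h)
  have h2 := Finset.map_injective ξ (congrArg Prod.snd h)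
  exact Prod.ext h1 h2

theorem exists_cover_H {Q : Set (Z × Finset Lam)} (hQ : Q.Countable) :
    ∃ (s : ℕ → Z) (ξ : ℕ ↪ Lam), Function.Injective s ∧ Q ⊆ Set.range (embH s ξ) := by
  classical
  obtain ⟨s, hs, hsQ⟩ := exists_cover (hQ.image Prod.fst)
  have hL : (⋃ q ∈ Q, ((q.2 : Finset Lam) : Set Lam)).Countable :=
    hQ.biUnion fun q _ => (Finset.countable_toSet q.2)
  obtain ⟨ξ, hξ, hξQ⟩ := exists_cover hL
  refine ⟨s, ⟨ξ, hξ⟩, hs, ?_⟩
  rintro ⟨y, B⟩ hq
  obtain ⟨i, hi⟩ := hsQ ⟨_, hq, rfl⟩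
  refine ⟨(i, B.preimage ξ hξ.injOn), Prod.ext hi ?_⟩
  change (B.preimage ξ hξ.injOn).map ⟨ξ, hξ⟩ = B
  rw [Finset.map_eq_image]
  change (B.preimage ξ hξ.injOn).image ξ = B
  rw [Finset.image_preimage, Finset.filter_eq_self]
  intro l hl
  exact hξQ (Set.mem_biUnion hq hl)

/-- transport along the `H` side -/
theorem pF_node {s : ℕ → Z} (hs : Function.Injective s) (τ : Task) (ξ : ℕ ↪ Lam)
    (hξ : τ.1.1 = ξ) (u : EE →₀ ℤ) :
    pF (Finsupp.single (Z.node s τ) 1) (u.mapDomain (embH s ξ)) =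
      u.mapDomain (fun e => (τ, e)) := by
  classical
  have key : (pF (Finsupp.single (Z.node s τ) 1)) ∘ₗ
      (Finsupp.lmapDomain ℤ ℤ (embH s ξ)) = Finsupp.lmapDomain ℤ ℤ (fun e : EE => (τ, e)) := by
    ext1 e
    apply LinearMap.ext_ring
    simp only [LinearMap.comp_apply, Finsupp.lsingle_apply]
    rw [Finsupp.lmapDomain_apply, Finsupp.lmapDomain_apply, Finsupp.mapDomain_single,
      Finsupp.mapDomain_single, pF_single]
    obtain ⟨i, A⟩ := e
    change fop (A.map ξ) (mat (Z.node s τ) (s i)) = _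
    rw [mat_node hs, fop_single]
    unfold fbas
    rw [if_pos (by
      rw [hξ]
      intro l hl
      rw [Finset.mem_coe, Finset.mem_map] at hl
      obtain ⟨j, _, rfl⟩ := hl
      exact ⟨j, rfl⟩)]
    congr 2
    ext j
    · rfl
    · simp only [Finset.empty_union, Finset.mem_preimage, Finset.mem_map]
      constructor
      · rintro ⟨k, hk, h⟩
        rw [hξ] at h
        rwa [← ξ.injective h]
      · intro hj
        exact ⟨j, hj, by rw [hξ]⟩
  exact LinearMap.congr_fun key u

/-- transport along the `G` side -/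
theorem pF_node' {s : ℕ → Z} (hs : Function.Injective s) (τ : Task) (u : ℕ →₀ ℤ) :
    pF (u.mapDomain s) (Finsupp.single (Z.node s τ, ∅) 1) =
      u.mapDomain (fun i => (τ, ((i, ∅) : EE))) := by
  classical
  have key : (pF.flip (Finsupp.single (Z.node s τ, ∅) 1)) ∘ₗ
      (Finsupp.lmapDomain ℤ ℤ s) = Finsupp.lmapDomain ℤ ℤ (fun i => (τ, ((i, ∅) : EE))) := by
    ext1 i
    apply LinearMap.ext_ring
    simp only [LinearMap.comp_apply, Finsupp.lsingle_apply, LinearMap.flip_apply]
    rw [Finsupp.lmapDomain_apply, Finsupp.lmapDomain_apply, Finsupp.mapDomain_single,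
      Finsupp.mapDomain_single, pF_single]
    change fop ∅ (mat (s i) (Z.node s τ)) = _
    rw [mat_node' hs, fop_empty, LinearMap.id_apply]
  exact LinearMap.congr_fun key u

theorem exists_comap {X Y : Type} {f : X → Y} (hf : Function.Injective f) (v : Y →₀ ℤ)
    (hv : (v.support : Set Y) ⊆ Set.range f) : ∃ u : X →₀ ℤ, u.mapDomain f = v :=
  ⟨v.comapDomain f hf.injOn, Finsupp.mapDomain_comapDomain f hf v hv⟩

theorem sepH (h : HH) (h0 : h ≠ 0) : ∃ g : GG, pF g h ≠ 0 := by
  obtain ⟨s, ξ, hs, hQ⟩ := exists_cover_H (Finset.countable_toSet h.support)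
  obtain ⟨τ, hτ⟩ := exists_task ξ ξ.injective
  obtain ⟨u, rfl⟩ := exists_comap (embH_inj hs ξ) h hQ
  refine ⟨Finsupp.single (Z.node s τ) 1, ?_⟩
  rw [pF_node hs τ ξ hτ]
  intro h1
  apply h0
  have h2 : u = 0 := by
    apply Finsupp.mapDomain_injective (f := fun e : EE => (τ, e))
    · intro a b hab
      exact congrArg Prod.snd hab
    · rw [h1, Finsupp.mapDomain_zero]
  rw [h2, Finsupp.mapDomain_zero]

theorem sepG (g : GG) (g0 : g ≠ 0) : ∃ h : HH, pF g h ≠ 0 := by
  obtain ⟨s, hs, hQ⟩ := exists_cover (Finset.countable_toSet g.support)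
  obtain ⟨u, rfl⟩ := exists_comap hs g hQ
  obtain τ : Task := Classical.arbitrary Task
  refine ⟨Finsupp.single (Z.node s τ, ∅) 1, ?_⟩
  rw [pF_node' hs τ]
  intro h1
  apply g0
  have h2 : u = 0 := by
    apply Finsupp.mapDomain_injective (f := fun i : ℕ => (τ, ((i, ∅) : EE)))
    · intro a b hab
      exact congrArg (fun p : Task × EE => p.2.1) hab
    · rw [h1, Finsupp.mapDomain_zero]
  rw [h2, Finsupp.mapDomain_zero]

end Pool.Agent.Helper33.RSQ
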