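import Pool.Agent.Helper33.RSQ.Final

set_option autoImplicit false

namespace Pool.Agent.Helper33.RSQ

open Topology Pointwise

theorem precompact_WT {A B : Type} [CommGroup A] [CommGroup B] (b : A →* B →* Circle) :
    ∀ U ∈ 𝓝 (1 : WT b), ∃ F : Set (WT b), F.Finite ∧ F * U = Set.univ := by
  intro U hU
  rw [(WT.inducing (b := b)).nhds_eq_comap, map_one, Filter.mem_comap] at hU
  obtain ⟨V, hV, hVU⟩ := hU
  obtain ⟨W, hW, hWV⟩ : ∃ W ∈ 𝓝 (1 : B → Circle), ∀ x ∈ W, ∀ y ∈ W, x⁻¹ * y ∈ V := by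
    have h1 : Filter.Tendsto (fun p : (B → Circle) × (B → Circle) => p.1⁻¹ * p.2)
        (𝓝 (1, 1)) (𝓝 1) := by
      have h2 : Continuous fun p : (B → Circle) × (B → Circle) => p.1⁻¹ * p.2 := by fun_prop
      have h3 := h2.tendsto (1, 1)
      simpa using h3
    have h2 := h1 hV
    rw [Filter.mem_map, nhds_prod_eq, Filter.mem_prod_same_iff] at h2
    obtain ⟨W, hW, h3⟩ := h2
    exact ⟨W, hW, fun x hx y hy => h3 (Set.mk_mem_prod hx hy)⟩
  -- finitely many translates of the interior of `W` cover the torus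
  obtain ⟨T, hT⟩ := (isCompact_univ (X := B → Circle)).elim_finite_subcover
    (fun x : B → Circle => x • interior W) (fun x => isOpen_interior.smul x)
    (fun x _ => Set.mem_iUnion.mpr ⟨x, Set.mem_smul_set.mpr
      ⟨1, mem_interior_iff_mem_nhds.mpr hW, mul_one x⟩⟩)
  classical
  let pick : (B → Circle) → WT b := fun x =>
    if h : ∃ a : WT b, ev b a ∈ x • interior W then h.choose else 1
  refine ⟨pick '' (T : Set (B → Circle)), T.finite_toSet.image _, ?_⟩
  rw [Set.eq_univ_iff_forall]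
  intro a
  have h1 := hT (Set.mem_univ (ev b a))
  rw [Set.mem_iUnion₂] at h1
  obtain ⟨x, hx, hax⟩ := h1
  have h : ∃ a : WT b, ev b a ∈ x • interior W := ⟨a, hax⟩
  have hp : ev b (pick x) ∈ x • interior W := by
    have : pick x = h.choose := dif_pos h
    rw [this]
    exact h.choose_spec
  refine Set.mem_mul.mpr ⟨pick x, ⟨x, hx, rfl⟩, (pick x)⁻¹ * a, ?_, by group⟩
  apply hVU
  obtain ⟨w, hw, hw'⟩ := Set.mem_smul_set.mp hp
  obtain ⟨v, hv, hv'⟩ := Set.mem_smul_set.mp hax
  have h2 := hWV w (interior_subset hw) v (interior_subset hv)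
  change ev b ((pick x)⁻¹ * a) ∈ V
  rw [map_mul, map_inv, ← hw', ← hv', smul_eq_mul, smul_eq_mul]
  have e : (x * w)⁻¹ * (x * v) = w⁻¹ * v := by
    rw [mul_inv_rev, mul_assoc, inv_mul_cancel_left]
  rw [e]
  exact h2

/-- the main theorem, with precompactness -/
theorem main_precompact : ∃ (G : Type) (_ : CommGroup G) (_ : TopologicalSpace G)
    (_ : IsTopologicalGroup G),
    Infinite G ∧ IsReflexive G ∧ (∀ U ∈ 𝓝 (1 : G), ∃ F : Set G, F.Finite ∧ F * U = Set.univ) ∧
      ∀ N : Subgroup G, IsClosed (N : Set G) → TopologicalSpace.SeparableSpace (G ⧸ N) →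
        N = ⊤ := by
  obtain ⟨φ, h1, h2⟩ := exists_phi (E := EE) (I := Task) card_task (fun τ => τ.1.2)
    (fun τ => τ.2.2)
  refine ⟨WT (bp φ), inferInstance, inferInstance, inferInstance, ?_, ?_, ?_, ?_⟩
  · change Infinite (Multiplicative GG)
    infer_instance
  · apply reflexive_of_pairing
    · exact finite_of_interp (bp φ) (interpG h1)
    · exact finite_of_interp (bp φ).flip (interpH h1)
    · intro a ha
      obtain ⟨h, hh⟩ := sepG (Multiplicative.toAdd (a : Multiplicative GG))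
        (fun h0 => ha (Multiplicative.toAdd.injective h0))
      refine ⟨Multiplicative.ofAdd h, ?_⟩
      intro h3
      exact hh ((bp_eq_one h2).mp h3)
  · exact precompact_WT (bp φ)
  · intro N hN hs
    exact trivial_of_separable (bp φ) (divide h2) N hN hs

end Pool.Agent.Helper33.RSQ
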