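import Pool.Agent.Helper33.RSQ.CR
import Pool.Agent.Helper33.RSQ.Defs

set_option autoImplicit false

namespace Pool.Agent.Helper33.RSQ

open Set Topology

/-- maps into the dual of a group with finite compact subsets -/
theorem continuous_dual {X Y : Type} [CommGroup X] [TopologicalSpace X] [IsTopologicalGroup X]
    [TopologicalSpace Y] (hX : ∀ K : Set X, IsCompact K → K.Finite) (f : Y → PontryaginDual X)
    (hf : ∀ x, Continuous (fun y => f y x)) : Continuous f := by
  let f' : Y → (X →ₜ* Circle) := f
  have h : Continuous f' := by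
    rw [(ContinuousMonoidHom.isInducing_toContinuousMap X Circle).continuous_iff,
      ContinuousMap.continuous_compactOpen]
    intro K hK U hU
    have h1 : {y | MapsTo ⇑((ContinuousMonoidHom.toContinuousMap ∘ f') y) K U} =
        ⋂ x ∈ K, (fun y => f y x) ⁻¹' U := by
      ext y
      simp only [mem_iInter, mem_preimage]
      exact Iff.rfl
    rw [h1]
    exact (hX K hK).isOpen_biInter fun x _ => hU.preimage (hf x)
  exact h

theorem continuous_eval {X : Type} [CommGroup X] [TopologicalSpace X] [IsTopologicalGroup X]
    (x : X) : Continuous (fun χ : PontryaginDual X => χ x) :=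
  ContinuousEvalConst.continuous_eval_const (F := X →ₜ* Circle) x

variable {A B : Type} [CommGroup A] [CommGroup B] (b : A →* B →* Circle)

/-- the character given by an element of `B` -/
noncomputable def kap (y : WT b.flip) : PontryaginDual (WT b) :=
  ({ toFun := fun a => ev b a y
     map_one' := by
       rw [map_one]
       rfl
     map_mul' := by
       intro a a'
       rw [map_mul]
       rfl
     continuous_toFun := WT.continuous_apply y } : WT b →ₜ* Circle)

theorem kap_apply (y : WT b.flip) (a : WT b) : kap b y a = ev b a y := rfl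

theorem ev_flip (y : WT b.flip) (a : WT b) : ev b.flip y a = ev b a y := rfl

theorem kap_surj : Function.Surjective (kap b) := by
  intro χ
  obtain ⟨y, hy⟩ := exists_of_continuous (b := b) (χ : WT b →* Circle) (map_continuous χ)
  refine ⟨y, PontryaginDual.ext fun a => ?_⟩
  exact (hy a).symm

variable (hA : ∀ K : Set (WT b), IsCompact K → K.Finite)
  (hB : ∀ K : Set (WT b.flip), IsCompact K → K.Finite)
  (sA : ∀ a : WT b, a ≠ 1 → ∃ y, ev b a y ≠ 1)

theorem kap_symm_continuous (g : PontryaginDual (WT b) → WT b.flip)
    (hg : ∀ χ, kap b (g χ) = χ) : Continuous g := by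
  rw [WT.continuous_iff]
  intro a
  have : (fun χ => ev b.flip (g χ) a) = fun χ : PontryaginDual (WT b) => χ a := by
    funext χ
    conv_rhs => rw [← hg χ]
    rfl
  rw [this]
  exact continuous_eval (X := WT b) a

include hB in
theorem finite_dual (K : Set (PontryaginDual (WT b))) (hK : IsCompact K) : K.Finite := by
  obtain ⟨g, hg⟩ := (kap_surj b).hasRightInverse
  have h1 := hB _ (hK.image (kap_symm_continuous b g hg))
  have h2 := h1.image (kap b)
  refine h2.subset ?_
  intro χ hχ
  exact ⟨g χ, ⟨χ, hχ, rfl⟩, hg χ⟩

include hA hB sA in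
/-- reflexivity from a pairing without infinite compact sets -/
theorem reflexive_of_pairing : IsReflexive (WT b) := by
  unfold IsReflexive
  have hfin := finite_dual b hB
  have hinj : Function.Injective (toBidual (WT b)) := by
    rw [injective_iff_map_eq_one]
    intro a ha
    by_contra hne
    obtain ⟨y, hy⟩ := sA a hne
    apply hy
    have h1 : toBidual (WT b) a (kap b y) = 1 := by rw [ha]; rfl
    exact h1
  have hsurj : Function.Surjective (toBidual (WT b)) := by
    intro Ψ
    let Ψ' : WT b.flip →* Circle :=
      { toFun := fun y => Ψ (kap b y)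
        map_one' := by
          have : kap b 1 = 1 := by
            apply PontryaginDual.ext
            intro a
            rw [kap_apply, ← ev_flip, map_one]
            rfl
          rw [this, map_one]
        map_mul' := by
          intro y y'
          have : kap b (y * y') = kap b y * kap b y' := by
            apply PontryaginDual.ext
            intro a
            rw [kap_apply, ← ev_flip, map_mul]
            rfl
          rw [this, map_mul] }
    have hkap : Continuous (kap b) := by
      apply continuous_dual hA
      intro a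
      exact WT.continuous_apply (b := b.flip) a
    obtain ⟨a, ha⟩ := exists_of_continuous (b := b.flip) Ψ' ((map_continuous Ψ).comp hkap)
    refine ⟨a, PontryaginDual.ext fun χ => ?_⟩
    obtain ⟨y, rfl⟩ := kap_surj b χ
    exact (ha y).symm
  have hcont : Continuous (toBidual (WT b)) := by
    apply continuous_dual hfin
    intro χ
    exact map_continuous χ
  have hinv : Continuous (Equiv.ofBijective _ ⟨hinj, hsurj⟩).symm := by
    rw [WT.continuous_iff]
    intro y
    have : (fun Ψ => ev b ((Equiv.ofBijective _ ⟨hinj, hsurj⟩).symm Ψ) y) =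
        fun Ψ : PontryaginDual (PontryaginDual (WT b)) => Ψ (kap b y) := by
      funext Ψ
      have h1 := (Equiv.ofBijective _ ⟨hinj, hsurj⟩).apply_symm_apply Ψ
      conv_rhs => rw [← h1]
      rfl
    rw [this]
    exact continuous_eval (X := PontryaginDual (WT b)) (kap b y)
  exact (Homeomorph.mk (Equiv.ofBijective _ ⟨hinj, hsurj⟩) hcont hinv).isHomeomorph

/-- separable quotients are trivial -/
theorem trivial_of_separable
    (hd : ∀ (y : B), y ≠ 1 → ∀ D : Set A, D.Countable → ∃ y' : B, (∃ a : A, b a y' ≠ 1) ∧
      (∀ a : A, b a y = 1 → b a y' = 1) ∧ ∀ d ∈ D, b d y' = 1)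
    (N : Subgroup (WT b)) (hN : IsClosed (N : Set (WT b)))
    (hs : TopologicalSpace.SeparableSpace (WT b ⧸ N)) : N = ⊤ := by
  by_contra hne
  obtain ⟨x, hx⟩ : ∃ x : WT b, x ∉ N := by
    by_contra h
    push Not at h
    exact hne (Subgroup.eq_top_iff' N |>.mpr h)
  obtain ⟨y, hy, hxy⟩ := exists_char_of_closed N hN x hx
  have hy1 : y ≠ 1 := by
    rintro rfl
    apply hxy
    change b x 1 = 1
    exact map_one (b x)
  obtain ⟨S, hS, hSd⟩ := hs.exists_countable_dense
  obtain ⟨y', ⟨a, ha⟩, h1, h2⟩ := hd y hy1 (Quotient.out '' S) (hS.image _)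
  apply ha
  -- the character descends
  let χ : WT b →* Circle := (kap b y' : WT b →ₜ* Circle)
  have hχN : N ≤ χ.ker := by
    intro n hn
    refine MonoidHom.mem_ker.mpr ?_
    exact h1 n (hy n hn)
  let χ' : WT b ⧸ N →* Circle := QuotientGroup.lift N χ hχN
  have hχ' : Continuous χ' := by
    apply continuous_quot_lift
    exact WT.continuous_apply (b := b) y'
  have h3 : ∀ s ∈ S, χ' s = 1 := by
    intro s hs'
    have h4 := h2 _ ⟨s, hs', rfl⟩
    have h5 : ((Quotient.out s : WT b) : WT b ⧸ N) = s := Quotient.out_eq s
    rw [← h5]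
    exact h4
  have h4 : (χ' : WT b ⧸ N → Circle) = fun _ => 1 :=
    hχ'.ext_on hSd continuous_const (fun s hs' => h3 s hs')
  have h5 := congrFun h4 (QuotientGroup.mk (α := WT b) a)
  exact h5

end Pool.Agent.Helper33.RSQ
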