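import Mathlib

set_option autoImplicit false

namespace Pool.Agent.Helper33.RSQ

open Set

universe u

variable {A : Type u} [CommGroup A]

/-- the complex function of a character -/
noncomputable def cf (h : A →* Circle) : A → ℂ := fun a => (h a : ℂ)

/-- averaging operators over the subgroup `N` -/
def IsAv (N : Subgroup A) (T : (A → ℂ) →ₗ[ℂ] (A → ℂ)) : Prop :=
  (∀ (p : A → ℂ) (ε : ℝ), (∀ a, ‖p a‖ ≤ ε) → ∀ a, ‖T p a‖ ≤ ε) ∧
  (∀ F : A → ℂ, (∀ a, ∀ n ∈ N, F (a * n) = F a) → T F = F) ∧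
  ∀ h : A →* Circle, ∃ c : ℂ, ‖c‖ ≤ 1 ∧ T (cf h) = c • cf h

theorem IsAv.id (N : Subgroup A) : IsAv N LinearMap.id :=
  ⟨fun _ _ h => h, fun _ _ => rfl, fun h => ⟨1, by simp, by simp⟩⟩

theorem IsAv.comp {N : Subgroup A} {T T' : (A → ℂ) →ₗ[ℂ] (A → ℂ)} (h : IsAv N T)
    (h' : IsAv N T') : IsAv N (T ∘ₗ T') := by
  refine ⟨fun p ε hp => h.1 _ _ (h'.1 p ε hp), fun F hF => ?_, fun χ => ?_⟩
  · rw [LinearMap.comp_apply, h'.2.1 F hF, h.2.1 F hF]
  · obtain ⟨c, hc, e⟩ := h.2.2 χ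
    obtain ⟨c', hc', e'⟩ := h'.2.2 χ
    refine ⟨c' * c, ?_, ?_⟩
    · rw [norm_mul]
      exact mul_le_one₀ hc' (norm_nonneg _) hc
    · rw [LinearMap.comp_apply, e', map_smul, e, smul_smul]

/-- average over powers of `y` -/
noncomputable def av (y : A) (M : ℕ) : (A → ℂ) →ₗ[ℂ] (A → ℂ) where
  toFun p a := (M : ℂ)⁻¹ * ∑ m ∈ Finset.range M, p (a * y ^ m)
  map_add' p q := by
    funext a
    simp only [Pi.add_apply]
    rw [Finset.sum_add_distrib, mul_add]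
  map_smul' c p := by
    funext a
    simp only [Pi.smul_apply, smul_eq_mul, RingHom.id_apply]
    rw [← Finset.mul_sum]
    ring

theorem av_apply (y : A) (M : ℕ) (p : A → ℂ) (a : A) :
    av y M p a = (M : ℂ)⁻¹ * ∑ m ∈ Finset.range M, p (a * y ^ m) := rfl

theorem av_cf (y : A) (M : ℕ) (h : A →* Circle) :
    av y M (cf h) = ((M : ℂ)⁻¹ * ∑ m ∈ Finset.range M, (h y : ℂ) ^ m) • cf h := by
  funext a
  rw [av_apply]
  simp only [cf, map_mul, map_pow, Circle.coe_mul, Circle.coe_pow, Pi.smul_apply, smul_eq_mul]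
  rw [← Finset.mul_sum]
  ring

theorem isAv_av {N : Subgroup A} {y : A} (hy : y ∈ N) {M : ℕ} (hM : 0 < M) :
    IsAv N (av y M) := by
  have hM' : (0 : ℝ) < M := by exact_mod_cast hM
  have hM'' : (M : ℂ) ≠ 0 := by exact_mod_cast hM.ne'
  refine ⟨fun p ε hp a => ?_, fun F hF => ?_, fun χ => ?_⟩
  · rw [av_apply, norm_mul, norm_inv, Complex.norm_natCast]
    have h1 : ‖∑ m ∈ Finset.range M, p (a * y ^ m)‖ ≤ M * ε := by
      refine (norm_sum_le _ _).trans ?_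
      refine (Finset.sum_le_sum (fun m _ => hp _)).trans ?_
      simp
    calc (M : ℝ)⁻¹ * ‖∑ m ∈ Finset.range M, p (a * y ^ m)‖ ≤ (M : ℝ)⁻¹ * (M * ε) :=
          mul_le_mul_of_nonneg_left h1 (by positivity)
      _ = ε := by field_simp
  · funext a
    rw [av_apply]
    have h1 : ∀ m ∈ Finset.range M, F (a * y ^ m) = F a := fun m _ => hF a _ (N.pow_mem hy m)
    rw [Finset.sum_congr rfl h1]
    simp only [Finset.sum_const, Finset.card_range, nsmul_eq_mul]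
    field_simp
  · refine ⟨_, ?_, av_cf y M χ⟩
    rw [norm_mul, norm_inv, Complex.norm_natCast]
    have h1 : ‖∑ m ∈ Finset.range M, (χ y : ℂ) ^ m‖ ≤ M := by
      refine (norm_sum_le _ _).trans ?_
      simp
    calc (M : ℝ)⁻¹ * ‖∑ m ∈ Finset.range M, (χ y : ℂ) ^ m‖ ≤ (M : ℝ)⁻¹ * M :=
          mul_le_mul_of_nonneg_left h1 (by positivity)
      _ = 1 := by field_simp

theorem av_small {y : A} {h : A →* Circle} (hy : h y ≠ 1) {ε : ℝ} (hε : 0 < ε) :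
    ∃ M : ℕ, 0 < M ∧ ∃ c : ℂ, ‖c‖ ≤ ε ∧ av y M (cf h) = c • cf h := by
  have hz : (h y : ℂ) ≠ 1 := fun e => hy (by ext; simpa using e)
  have hz' : (0 : ℝ) < ‖(h y : ℂ) - 1‖ := norm_pos_iff.mpr (sub_ne_zero.mpr hz)
  obtain ⟨M, hM⟩ := exists_nat_gt (2 / (ε * ‖(h y : ℂ) - 1‖))
  have hM0 : (0 : ℝ) < M := lt_trans (by positivity) hM
  refine ⟨M, by exact_mod_cast hM0, _, ?_, av_cf y M h⟩
  rw [norm_mul, norm_inv, Complex.norm_natCast, geom_sum_eq hz, norm_div]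
  have h1 : ‖(h y : ℂ) ^ M - 1‖ ≤ 2 := by
    refine (norm_sub_le _ _).trans ?_
    rw [norm_pow, Circle.norm_coe]
    norm_num
  rw [div_lt_iff₀ (by positivity)] at hM
  rw [inv_mul_le_iff₀ hM0, div_le_iff₀ hz']
  linarith

/-- trigonometric polynomials are close, after averaging, to invariant ones -/
theorem exists_av {N : Subgroup A} (Hs : Set (A →* Circle)) {p : A → ℂ}
    (hp : p ∈ Submodule.span ℂ (cf '' Hs)) :
    ∀ T₀, IsAv N T₀ → ∀ ε : ℝ, 0 < ε → ∃ T, IsAv N T ∧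
      ∃ q ∈ Submodule.span ℂ (cf '' {h | h ∈ Hs ∧ ∀ n ∈ N, h n = 1}),
        ∀ a, ‖T (T₀ p) a - q a‖ ≤ ε := by
  have hinv : ∀ q ∈ Submodule.span ℂ (cf '' {h : A →* Circle | h ∈ Hs ∧ ∀ n ∈ N, h n = 1}),
      ∀ a, ∀ n ∈ N, q (a * n) = q a := by
    intro q hq a n hn
    induction hq using Submodule.span_induction with
    | mem x hx =>
      obtain ⟨h, ⟨_, h2⟩, rfl⟩ := hx
      simp [cf, h2 n hn]
    | zero => rfl
    | add x y _ _ hx hy => simp [hx, hy]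
    | smul c x _ hx => simp [hx]
  induction hp using Submodule.span_induction with
  | mem x hx =>
    obtain ⟨h, hh, rfl⟩ := hx
    intro T₀ hT₀ ε hε
    by_cases hN : ∀ n ∈ N, h n = 1
    · refine ⟨LinearMap.id, IsAv.id N, cf h, Submodule.subset_span ⟨h, ⟨hh, hN⟩, rfl⟩, fun a => ?_⟩
      rw [hT₀.2.1 (cf h)]
      · simpa using hε.le
      · intro a n hn
        simp [cf, hN n hn]
    · push Not at hN
      obtain ⟨y, hy, hy1⟩ := hN
      obtain ⟨M, hM, c, hc, e⟩ := av_small hy1 hε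
      obtain ⟨c', hc', e'⟩ := hT₀.2.2 h
      refine ⟨av y M, isAv_av hy hM, 0, Submodule.zero_mem _, fun a => ?_⟩
      rw [e', map_smul, e]
      simp only [Pi.smul_apply, smul_eq_mul, Pi.zero_apply, sub_zero, cf]
      rw [norm_mul, norm_mul, Circle.norm_coe, mul_one]
      calc ‖c'‖ * ‖c‖ ≤ 1 * ε := mul_le_mul hc' hc (norm_nonneg _) zero_le_one
        _ = ε := one_mul _
  | zero =>
    intro T₀ _ ε hε
    refine ⟨LinearMap.id, IsAv.id N, 0, Submodule.zero_mem _, fun a => ?_⟩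
    simpa using hε.le
  | add x y _ _ hx hy =>
    intro T₀ hT₀ ε hε
    obtain ⟨T₁, hT₁, q₁, hq₁, e₁⟩ := hx T₀ hT₀ (ε / 2) (by positivity)
    obtain ⟨T₂, hT₂, q₂, hq₂, e₂⟩ := hy (T₁ ∘ₗ T₀) (hT₁.comp hT₀) (ε / 2) (by positivity)
    refine ⟨T₂ ∘ₗ T₁, hT₂.comp hT₁, q₁ + q₂, Submodule.add_mem _ hq₁ hq₂, fun a => ?_⟩
    have h1 := hT₂.1 (T₁ (T₀ x) - q₁) (ε / 2) e₁ a
    rw [map_sub, hT₂.2.1 q₁ (hinv q₁ hq₁)] at h1
    have h2 := e₂ a
    have h3 : (T₂ ∘ₗ T₁) (T₀ (x + y)) a - (q₁ + q₂) a =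
        ((T₂ (T₁ (T₀ x)) - q₁) a) + ((T₂ ((T₁ ∘ₗ T₀) y)) a - q₂ a) := by
      simp only [map_add, LinearMap.comp_apply, Pi.add_apply, Pi.sub_apply]
      ring
    rw [h3]
    refine (norm_add_le _ _).trans ?_
    linarith
  | smul c x _ hx =>
    intro T₀ hT₀ ε hε
    obtain ⟨T₁, hT₁, q₁, hq₁, e₁⟩ := hx T₀ hT₀ (ε / (‖c‖ + 1)) (by positivity)
    refine ⟨T₁, hT₁, c • q₁, Submodule.smul_mem _ _ hq₁, fun a => ?_⟩
    rw [map_smul, map_smul]
    simp only [Pi.smul_apply, smul_eq_mul]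
    rw [← mul_sub, norm_mul]
    calc ‖c‖ * ‖T₁ (T₀ x) a - q₁ a‖ ≤ (‖c‖ + 1) * (ε / (‖c‖ + 1)) :=
          mul_le_mul (by linarith) (e₁ a) (norm_nonneg _) (by positivity)
      _ = ε := by field_simp

end Pool.Agent.Helper33.RSQ
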