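import Pool.Agent.Helper33.RSQ.Sep

set_option autoImplicit false

namespace Pool.Agent.Helper33.RSQ

open Set
open scoped Pointwise

universe u

variable {A : Type u} [CommGroup A]

/-- trigonometric polynomials -/
noncomputable def trig (Hs : Subgroup (A →* Circle)) : Submodule ℂ (A → ℂ) :=
  Submodule.span ℂ (cf '' (Hs : Set (A →* Circle)))

theorem cf_mul (h h' : A →* Circle) : cf (h * h') = cf h * cf h' := by
  funext a
  simp [cf]

theorem cf_one : cf (1 : A →* Circle) = 1 := by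
  funext a
  simp [cf]

theorem cf_inv (h : A →* Circle) : cf h⁻¹ = star (cf h) := by
  funext a
  simp only [cf, MonoidHom.inv_apply, Circle.coe_inv_eq_conj, Pi.star_apply]
  rfl

theorem trig_mul (Hs : Subgroup (A →* Circle)) {p q : A → ℂ} (hp : p ∈ trig Hs)
    (hq : q ∈ trig Hs) : p * q ∈ trig Hs := by
  have h1 := Submodule.mul_mem_mul hp hq
  unfold trig at h1
  rw [Submodule.span_mul_span] at h1
  refine Submodule.span_mono ?_ h1
  rintro _ ⟨_, ⟨h, hh, rfl⟩, _, ⟨h', hh', rfl⟩, rfl⟩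
  exact ⟨h * h', Hs.mul_mem hh hh', cf_mul h h'⟩

theorem trig_star (Hs : Subgroup (A →* Circle)) {p : A → ℂ} (hp : p ∈ trig Hs) :
    star p ∈ trig Hs := by
  unfold trig at hp
  induction hp using Submodule.span_induction with
  | mem x hx =>
    obtain ⟨h, hh, rfl⟩ := hx
    exact Submodule.subset_span ⟨h⁻¹, Hs.inv_mem hh, cf_inv h⟩
  | zero => rw [star_zero]; exact Submodule.zero_mem _
  | add x y _ _ hx hy => rw [star_add]; exact Submodule.add_mem _ hx hy
  | smul c x _ hx => rw [star_smul]; exact Submodule.smul_mem _ _ hx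

theorem trig_one (Hs : Subgroup (A →* Circle)) : (1 : A → ℂ) ∈ trig Hs :=
  Submodule.subset_span ⟨1, Hs.one_mem, cf_one⟩

variable {ι : Type u}

/-- functions on the torus pulling back to trigonometric polynomials -/
noncomputable def pullAlg (Hs : Subgroup (A →* Circle)) (φ : ι → A →* Circle) :
    StarSubalgebra ℂ C(ι → Circle, ℂ) where
  carrier := {g | (fun a => g (fun i => φ i a)) ∈ trig Hs}
  mul_mem' := by
    intro p q hp hq
    exact trig_mul Hs hp hq
  add_mem' := by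
    intro p q hp hq
    exact (trig Hs).add_mem hp hq
  algebraMap_mem' c := by
    change (fun _ : A => c) ∈ trig Hs
    have : (fun _ : A => c) = c • (1 : A → ℂ) := by
      funext a
      simp
    rw [this]
    exact Submodule.smul_mem _ _ (trig_one Hs)
  star_mem' := by
    intro p hp
    exact trig_star Hs hp

theorem pullAlg_sep (Hs : Subgroup (A →* Circle)) (φ : ι → A →* Circle) (hφ : ∀ i, φ i ∈ Hs) :
    (pullAlg Hs φ).SeparatesPoints := by
  intro z w hzw
  obtain ⟨i, hi⟩ := Function.ne_iff.mp hzw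
  let g : C(ι → Circle, ℂ) := ⟨fun z => (z i : ℂ), by fun_prop⟩
  refine ⟨g, ⟨g, ?_, rfl⟩, ?_⟩
  · change (fun a => ((φ i a : Circle) : ℂ)) ∈ trig Hs
    exact Submodule.subset_span ⟨φ i, hφ i, rfl⟩
  · change (z i : ℂ) ≠ (w i : ℂ)
    intro h
    exact hi (by ext; simpa using h)

/-- Stone–Weierstrass -/
theorem trig_approx [Fintype ι] (Hs : Subgroup (A →* Circle)) (φ : ι → A →* Circle) (hφ : ∀ i, φ i ∈ Hs)
    (F : C(ι → Circle, ℂ)) {ε : ℝ} (hε : 0 < ε) :
    ∃ p ∈ trig Hs, ∀ a, ‖F (fun i => φ i a) - p a‖ ≤ ε := by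
  have h := ContinuousMap.starSubalgebra_topologicalClosure_eq_top_of_separatesPoints _
    (pullAlg_sep Hs φ hφ)
  have h1 : F ∈ (pullAlg Hs φ).topologicalClosure := by
    rw [h]
    trivial
  have h2 : F ∈ closure ((pullAlg Hs φ : StarSubalgebra ℂ C(ι → Circle, ℂ)) :
      Set C(ι → Circle, ℂ)) := h1
  rw [Metric.mem_closure_iff] at h2
  obtain ⟨g, hg, hd⟩ := h2 ε hε
  refine ⟨_, hg, fun a => ?_⟩
  have h3 := ContinuousMap.dist_apply_le_dist (f := F) (g := g) (fun i => φ i a)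
  rw [dist_eq_norm] at h3
  exact h3.trans hd.le

theorem circle_dist_mul (z w v : Circle) : dist (z * v) (w * v) = dist z w := by
  change dist ((z * v : Circle) : ℂ) ((w * v : Circle) : ℂ) = dist (z : ℂ) (w : ℂ)
  rw [dist_eq_norm, dist_eq_norm, Circle.coe_mul,
    Circle.coe_mul, ← sub_mul, norm_mul, Circle.norm_coe, mul_one]

theorem torus_dist_mul [Fintype ι] (z w v : ι → Circle) : dist (z * v) (w * v) = dist z w := by
  rw [dist_pi_def, dist_pi_def]
  simp only [Pi.mul_apply]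
  congr 1
  apply Finset.sup_congr rfl
  intro i _
  rw [nndist_dist, nndist_dist]
  congr 1
  exact circle_dist_mul _ _ _

/-- separation of a point from a closed subgroup -/
theorem exists_char [Fintype ι] (Hs : Subgroup (A →* Circle)) (φ : ι → A →* Circle) (hφ : ∀ i, φ i ∈ Hs)
    (N : Subgroup A) (x : A) {δ : ℝ} (hδ : 0 < δ)
    (hx : ∀ y ∈ N, ∃ i, δ ≤ dist (φ i x) (φ i y)) :
    ∃ h ∈ Hs, (∀ n ∈ N, h n = 1) ∧ h x ≠ 1 := by
  by_contra hcon
  push Not at hcon
  -- the invariant function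
  let Φ : A → ι → Circle := fun a i => φ i a
  have hΦ : ∀ a b, Φ (a * b) = Φ a * Φ b := by
    intro a b
    funext i
    exact map_mul (φ i) a b
  let S : Set (ι → Circle) := Φ '' (N : Set A)
  have hS : S.Nonempty := ⟨Φ 1, 1, N.one_mem, rfl⟩
  have hle : ∀ a, ∀ n ∈ N, Metric.infDist (Φ (a * n)) S ≤ Metric.infDist (Φ a) S := by
    intro a n hn
    rw [Metric.le_infDist hS]
    rintro _ ⟨y, hy, rfl⟩
    have hmem : Φ (y * n) ∈ S := ⟨y * n, N.mul_mem hy hn, rfl⟩
    refine (Metric.infDist_le_dist_of_mem hmem).trans ?_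
    rw [hΦ, hΦ, torus_dist_mul]
  let F : C(ι → Circle, ℂ) := ⟨fun z => (Metric.infDist z S : ℂ), by fun_prop⟩
  let F' : A → ℂ := fun a => F (Φ a)
  have hF' : ∀ a, ∀ n ∈ N, F' (a * n) = F' a := by
    intro a n hn
    change ((Metric.infDist (Φ (a * n)) S : ℝ) : ℂ) = ((Metric.infDist (Φ a) S : ℝ) : ℂ)
    congr 1
    apply le_antisymm (hle a n hn)
    have := hle (a * n) n⁻¹ (N.inv_mem hn)
    rwa [mul_inv_cancel_right] at this
  obtain ⟨p, hp, hp'⟩ := trig_approx Hs φ hφ F (ε := δ / 8) (by positivity)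
  obtain ⟨T, hT, q, hq, hq'⟩ := exists_av (N := N) (Hs : Set (A →* Circle)) hp
    LinearMap.id (IsAv.id N) (δ / 8) (by positivity)
  have h1 : ∀ a, ‖F' a - q a‖ ≤ δ / 4 := by
    intro a
    have a1 := hT.1 (F' - p) (δ / 8) hp' a
    rw [map_sub, hT.2.1 F' hF'] at a1
    have a2 : ‖T p a - q a‖ ≤ δ / 8 := hq' a
    have a3 : F' a - q a = (F' - T p) a + (T p a - q a) := by
      simp only [Pi.sub_apply]
      ring
    rw [a3]
    refine (norm_add_le _ _).trans ?_
    linarith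
  have h2 : q x = q 1 := by
    clear hq' h1
    induction hq using Submodule.span_induction with
    | mem y hy =>
      obtain ⟨h, ⟨hh, hn⟩, rfl⟩ := hy
      simp [cf, hcon h hh hn]
    | zero => rfl
    | add y z _ _ hy hz => simp [hy, hz]
    | smul c y _ hy => simp [hy]
  have h3 := h1 x
  have h4 := h1 1
  rw [h2] at h3
  have h5 : F' 1 = 0 := by
    change ((Metric.infDist (Φ 1) S : ℝ) : ℂ) = 0
    have hmem : Φ 1 ∈ S := ⟨1, N.one_mem, rfl⟩
    rw [Metric.infDist_zero_of_mem hmem]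
    simp
  have h6 : δ ≤ ‖F' x‖ := by
    change δ ≤ ‖((Metric.infDist (Φ x) S : ℝ) : ℂ)‖
    rw [Complex.norm_real, Real.norm_of_nonneg Metric.infDist_nonneg, Metric.le_infDist hS]
    rintro _ ⟨y, hy, rfl⟩
    obtain ⟨i, hi⟩ := hx y hy
    exact hi.trans (dist_le_pi_dist (Φ x) (Φ y) i)
  rw [h5, zero_sub, norm_neg] at h4
  have h7 := norm_sub_le (F' x - q 1) (- q 1)
  have h8 : F' x - q 1 - -q 1 = F' x := by ring
  rw [h8, norm_neg] at h7
  linarith

end Pool.Agent.Helper33.RSQ
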