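import Pool.Agent.Helper33.RSQ.Good
import Pool.Agent.Helper33.RSQ.Lacun

set_option autoImplicit false

namespace Pool.Agent.Helper33.RSQ

open Cardinal

variable {E : Type}

/-- integer combinations -/
noncomputable abbrev lc (φ : E → ℝ) (v : E →₀ ℤ) : ℝ := Finsupp.linearCombination ℤ φ v

/-- independence over `U` -/
def Ind (U : Set ℝ) (φ : E → ℝ) : Prop := ∀ v : E →₀ ℤ, lc φ v ∈ U → v = 0

theorem exists_ind [Countable E] (U : Subalgebra ℚ ℝ) (hU : #U < continuum) :
    ∃ c : E → ℝ, Ind (U : Set ℝ) c := by
  classical
  let W := ℝ ⧸ (Subalgebra.toSubmodule U)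
  let bs := Module.Basis.ofVectorSpace ℚ W
  have hinf : Infinite (Module.Basis.ofVectorSpaceIndex ℚ W) := by
    by_contra hcon
    rw [not_infinite_iff_finite] at hcon
    have h1 : Countable W := by
      have e := bs.equivFun
      exact Function.Injective.countable e.injective
    have h2 : #ℝ = #W * #U := by
      have e : ℝ ≃ W × U := AddSubgroup.addGroupEquivQuotientProdAddSubgroup
        (s := (Subalgebra.toSubmodule U).toAddSubgroup)
      rw [mk_congr e, mk_prod, lift_id, lift_id]
    rw [mk_real] at h2
    have h3 : #W * #U < continuum :=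
      mul_lt_of_lt aleph0_le_continuum
        (lt_of_le_of_lt (mk_le_aleph0_iff.mpr h1) aleph0_lt_continuum) hU
    exact absurd h2 h3.ne'
  obtain ⟨ie, hie⟩ := exists_injective_nat E
  let emb : E → Module.Basis.ofVectorSpaceIndex ℚ W := fun e =>
    Infinite.natEmbedding _ (ie e)
  have hemb : Function.Injective emb := (Infinite.natEmbedding _).injective.comp hie
  have hlift : ∀ e, ∃ c : ℝ, (Submodule.Quotient.mk c : W) = bs (emb e) := fun e =>
    Submodule.Quotient.mk_surjective _ _
  choose c hc using hlift
  refine ⟨c, fun v hv => ?_⟩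
  have li : LinearIndependent ℤ (fun e => bs (emb e)) := by
    have h := bs.linearIndependent.comp emb hemb
    exact h.restrict_scalars (fun a b hab => by simpa using hab)
  rw [linearIndependent_iff] at li
  apply li v
  have h1 : (Submodule.Quotient.mk (lc c v) : W) = 0 :=
    (Submodule.Quotient.mk_eq_zero _).mpr hv
  rw [← h1]
  have h2 := Finsupp.apply_linearCombination ℤ
    (Submodule.mkQ (Subalgebra.toSubmodule U)).toAddMonoidHom.toIntLinearMap c v
  have h3 : (⇑(Submodule.mkQ (Subalgebra.toSubmodule U)).toAddMonoidHom.toIntLinearMap ∘ c) =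
      fun e => bs (emb e) := by
    funext e
    exact hc e
  rw [h3] at h2
  exact h2.symm

end Pool.Agent.Helper33.RSQ
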