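import Pool.Agent.Helper33.RSQ.Stage

set_option autoImplicit false

namespace Pool.Agent.Helper33.RSQ

open Cardinal

variable {E : Type}

theorem lc_add (φ ψ : E → ℝ) (v : E →₀ ℤ) : lc (fun e => φ e + ψ e) v = lc φ v + lc ψ v := by
  unfold lc
  rw [Finsupp.linearCombination_apply, Finsupp.linearCombination_apply,
    Finsupp.linearCombination_apply, ← Finsupp.sum_add]
  apply Finsupp.sum_congr
  intro e _
  rw [smul_add]

theorem lc_rat (U : Subalgebra ℚ ℝ) (r : E → ℚ) (v : E →₀ ℤ) :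
    lc (fun e => (r e : ℝ)) v ∈ U := by
  unfold lc
  rw [Finsupp.linearCombination_apply, Finsupp.sum]
  apply Subalgebra.sum_mem
  intro e _
  apply zsmul_mem
  exact U.algebraMap_mem (r e)

theorem ind_rat {U : Subalgebra ℚ ℝ} {c : E → ℝ} (hc : Ind (U : Set ℝ) c) (r : E → ℚ) :
    Ind (U : Set ℝ) (fun e => c e + (r e : ℝ)) := by
  intro v hv
  apply hc v
  rw [lc_add] at hv
  have h1 := lc_rat U r v
  have h2 := U.sub_mem hv h1
  rw [add_sub_cancel_right] at h2
  exact h2

/-- recursive choice of a sequence -/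
theorem exists_rec (R : ℕ → (ℕ → ℚ) → ℚ → Prop) (h : ∀ k q, ∃ x, R k q x)
    (hR : ∀ k q q' x, (∀ l < k, q l = q' l) → R k q x → R k q' x) :
    ∃ q : ℕ → ℚ, ∀ k, R k q (q k) := by
  choose g hg using h
  let F : ℕ → ℕ → ℚ := fun k => Nat.rec (fun _ => 0) (fun n f => Function.update f n (g n f)) k
  have hF : ∀ n, F (n + 1) = Function.update (F n) n (g n (F n)) := fun n => rfl
  have hst : ∀ k l, l < k → F k l = F (l + 1) l := by
    intro k
    induction k with
    | zero => intro l hl; omega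
    | succ k ih =>
      intro l hl
      rcases Nat.lt_succ_iff_lt_or_eq.mp hl with h1 | rfl
      · rw [hF, Function.update_of_ne h1.ne, ih l h1]
      · rfl
  refine ⟨fun k => F (k + 1) k, fun k => ?_⟩
  have h1 := hg k (F k)
  have h2 : F (k + 1) k = g k (F k) := by
    rw [hF, Function.update_self]
  change R k _ (F (k + 1) k)
  rw [h2]
  apply hR k (F k) _ _ _ h1
  intro l hl
  exact hst k l hl

theorem exists_rat_cos (A : ℝ) (a : ℤ) (ha : a ≠ 0) :
    ∃ x : ℚ, Real.cos (2 * Real.pi * (A + a * x)) ≤ 0 := by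
  have ha' : (a : ℝ) ≠ 0 := by exact_mod_cast ha
  have ha'' : 0 < |(a : ℝ)| := abs_pos.mpr ha'
  obtain ⟨x, hx⟩ := exists_rat_near ((1 / 2 - A) / a) (ε := 1 / (8 * |(a : ℝ)|)) (by positivity)
  refine ⟨x, ?_⟩
  have h1 : |A + a * x - 1 / 2| ≤ 1 / 8 := by
    have e : A + a * x - 1 / 2 = -(a * ((1 / 2 - A) / a - x)) := by
      rw [mul_sub, mul_div_cancel₀ _ ha']
      ring
    rw [e, abs_neg, abs_mul]
    calc |(a : ℝ)| * |(1 / 2 - A) / a - x| ≤ |(a : ℝ)| * (1 / (8 * |(a : ℝ)|)) :=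
          mul_le_mul_of_nonneg_left hx.le ha''.le
      _ = 1 / 8 := by field_simp
  rw [abs_le] at h1
  have hpi := Real.pi_pos
  apply Real.cos_nonpos_of_pi_div_two_le_of_le
  · nlinarith [h1.1]
  · nlinarith [h1.2]

theorem stage2 {U : Subalgebra ℚ ℝ} {c : E → ℝ} (hc : Ind (U : Set ℝ) c)
    {t : ℕ → (E →₀ ℤ)} (ht : Good2 t) :
    ∃ φ : E → ℝ, Ind (U : Set ℝ) φ ∧ ∀ k, Real.cos (2 * Real.pi * lc φ (t k)) ≤ 0 := by
  classical
  obtain ⟨p, hp⟩ := ht
  have hinj : Function.Injective p := by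
    intro k l hkl
    rcases lt_trichotomy k l with h | h | h
    · exact absurd (hkl ▸ (hp l).2 k h) (hp k).1
    · exact h
    · exact absurd (hkl ▸ (hp k).2 l h) (hp l).1
  obtain ⟨q, hq⟩ := exists_rec
    (fun k q x => Real.cos (2 * Real.pi * (lc c (t k) +
      ∑ l ∈ Finset.range k, (t k (p l) : ℝ) * (q l : ℝ) + (t k (p k) : ℝ) * (x : ℝ))) ≤ 0)
    (fun k q => exists_rat_cos _ _ (hp k).1)
    (by
      intro k q q' x h1 h2
      have : ∑ l ∈ Finset.range k, ((t k (p l) : ℝ)) * (q' l : ℝ) =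
          ∑ l ∈ Finset.range k, (t k (p l) : ℝ) * (q l : ℝ) :=
        Finset.sum_congr rfl fun l hl => by rw [h1 l (Finset.mem_range.mp hl)]
      rw [this]
      exact h2)
  let r : E → ℚ := fun e => if h : ∃ k, p k = e then q h.choose else 0
  have hr : ∀ k, r (p k) = q k := by
    intro k
    have h : ∃ l, p l = p k := ⟨k, rfl⟩
    have h1 : r (p k) = q h.choose := dif_pos h
    rw [h1, hinj h.choose_spec]
  have hr0 : ∀ e, (¬ ∃ k, p k = e) → r e = 0 := fun e he => dif_neg he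
  refine ⟨fun e => c e + (r e : ℝ), ind_rat hc r, fun k => ?_⟩
  have h1 := hq k
  have h2 : lc (fun e => (r e : ℝ)) (t k) =
      ∑ l ∈ Finset.range k, (t k (p l) : ℝ) * (q l : ℝ) + t k (p k) * q k := by
    rw [← Finset.sum_range_succ (fun l => (t k (p l) : ℝ) * (q l : ℝ))]
    unfold lc
    rw [Finsupp.linearCombination_apply, Finsupp.sum]
    have h3 : ∀ e ∈ (t k).support, (t k e) • ((r e : ℚ) : ℝ) = (t k e : ℝ) * (r e : ℝ) := by
      intro e _
      rw [zsmul_eq_mul]
    rw [Finset.sum_congr rfl h3]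
    have h4 : ∑ l ∈ Finset.range (k + 1), (t k (p l) : ℝ) * (q l : ℝ) =
        ∑ e ∈ (Finset.range (k + 1)).image p, (t k e : ℝ) * (r e : ℝ) := by
      rw [Finset.sum_image (fun a _ b _ h => hinj h)]
      apply Finset.sum_congr rfl
      intro l _
      rw [hr]
    rw [h4]
    -- both sums agree on the union
    have h5 : ∑ e ∈ (t k).support, (t k e : ℝ) * (r e : ℝ) =
        ∑ e ∈ (t k).support ∪ (Finset.range (k + 1)).image p, (t k e : ℝ) * (r e : ℝ) := by
      apply Finset.sum_subset Finset.subset_union_left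
      intro e _ he
      rw [Finsupp.notMem_support_iff.mp he]
      simp
    have h6 : ∑ e ∈ (Finset.range (k + 1)).image p, (t k e : ℝ) * (r e : ℝ) =
        ∑ e ∈ (t k).support ∪ (Finset.range (k + 1)).image p, (t k e : ℝ) * (r e : ℝ) := by
      apply Finset.sum_subset Finset.subset_union_right
      intro e _ he
      by_cases h7 : ∃ l, p l = e
      · obtain ⟨l, rfl⟩ := h7
        have h8 : ¬ l < k + 1 := fun h => he (Finset.mem_image.mpr
          ⟨l, Finset.mem_range.mpr h, rfl⟩)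
        rw [(hp l).2 k (by omega)]
        simp
      · rw [hr0 e h7]
        simp
    rw [h5, h6]
  rw [lc_add, h2, ← add_assoc]
  exact h1

theorem stage1 [Countable E] {U : Subalgebra ℚ ℝ} (hU : #U < continuum) {c : E → ℝ}
    (hc : Ind (U : Set ℝ) c) {t : ℕ → (E →₀ ℤ)} (ht : Good1 t) :
    ∃ φ : E → ℝ, Ind (U : Set ℝ) φ ∧ ∀ k, Real.cos (2 * Real.pi * lc φ (t k)) ≤ 0 := by
  classical
  obtain ⟨p, h0, h1⟩ := ht
  obtain ⟨f, hf, hf'⟩ := many_lacunary (fun k => (t k p : ℝ))
    (fun k => lc c (t k) - t k p * c p) (by exact_mod_cast h0) (fun k => by exact_mod_cast h1 k)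
  -- the bad set
  let F : (ℤ × (E →₀ ℤ)) × U → ℝ := fun x => (x.2.1 - lc c x.1.2) / x.1.1
  have hbad : #(Set.range F) < continuum := by
    refine lt_of_le_of_lt mk_range_le ?_
    rw [mk_prod, lift_id, lift_id]
    exact mul_lt_of_lt aleph0_le_continuum
      (lt_of_le_of_lt (mk_le_aleph0_iff.mpr inferInstance) aleph0_lt_continuum) hU
  have hrange : #(Set.range f) = continuum := by
    rw [mk_range_eq f hf]
    simp
  obtain ⟨x, hx, hxb⟩ : ∃ x ∈ Set.range f, x ∉ Set.range F := by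
    by_contra hcon
    push Not at hcon
    have h2 : #(Set.range f) ≤ #(Set.range F) := mk_le_mk_of_subset hcon
    rw [hrange] at h2
    exact absurd hbad (not_lt.mpr h2)
  obtain ⟨b, rfl⟩ := hx
  let φ : E → ℝ := fun e => c e + (if e = p then f b - c p else 0)
  have hφ : ∀ v : E →₀ ℤ, lc φ v = lc c v + v p * (f b - c p) := by
    intro v
    rw [lc_add]
    congr 1
    unfold lc
    rw [Finsupp.linearCombination_apply, Finsupp.sum]
    simp only [smul_ite, smul_zero]
    rw [Finset.sum_ite_eq']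
    split_ifs with h
    · rw [zsmul_eq_mul]
    · rw [Finsupp.notMem_support_iff.mp h]
      simp
  refine ⟨φ, fun v hv => ?_, fun k => ?_⟩
  · by_cases hvp : v p = 0
    · rw [hφ, hvp] at hv
      apply hc v
      simpa using hv
    · exfalso
      apply hxb
      have hvp' : (v p : ℝ) ≠ 0 := by exact_mod_cast hvp
      refine ⟨((v p, v - Finsupp.single p (v p)), ⟨lc φ v, hv⟩), ?_⟩
      change (lc φ v - lc c (v - Finsupp.single p (v p))) / (v p : ℝ) = f b
      have h2 : lc c (v - Finsupp.single p (v p)) = lc c v - v p * c p := by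
        unfold lc
        rw [map_sub, Finsupp.linearCombination_single, zsmul_eq_mul]
      rw [h2, hφ, div_eq_iff hvp']
      ring
  · have h2 := hf' b k
    rw [hφ]
    have e : lc c (t k) + (t k p : ℝ) * (f b - c p) =
        (t k p : ℝ) * f b + (lc c (t k) - t k p * c p) := by ring
    rw [e]
    exact h2

theorem stage [Countable E] (U : Subalgebra ℚ ℝ) (hU : #U < continuum) {t : ℕ → (E →₀ ℤ)}
    (ht : Good t) :
    ∃ φ : E → ℝ, Ind (U : Set ℝ) φ ∧ ∀ k, Real.cos (2 * Real.pi * lc φ (t k)) ≤ 0 := by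
  obtain ⟨c, hc⟩ := exists_ind (E := E) U hU
  rcases ht with ht | ht
  · exact stage1 hU hc ht
  · exact stage2 hc ht

end Pool.Agent.Helper33.RSQ
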