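import Pool.Agent.Helper33.RSQ.Stage2

set_option autoImplicit false

namespace Pool.Agent.Helper33.RSQ

open Cardinal Ordinal

variable {E I : Type}

theorem adjoin_small (S : Set ℝ) (hS : #S < continuum) :
    #(Algebra.adjoin ℚ S) < continuum := by
  refine lt_of_le_of_lt (Algebra.cardinalMk_adjoin_le ℚ S) ?_
  refine max_lt (max_lt ?_ hS) aleph0_lt_continuum
  exact lt_of_le_of_lt (mk_le_aleph0_iff.mpr inferInstance) aleph0_lt_continuum

/-- simultaneous choice of independent solutions -/
theorem exists_phi [Countable E] (hI : #I ≤ continuum) (t : I → ℕ → (E →₀ ℤ))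
    (ht : ∀ i, Good (t i)) :
    ∃ φ : I → E → ℝ, (∀ i k, Real.cos (2 * Real.pi * lc (φ i) (t i k)) ≤ 0) ∧
      ∀ v : (I × E) →₀ ℤ, (∃ m : ℤ, lc (fun p => φ p.1 p.2) v = m) → v = 0 := by
  classical
  obtain ⟨r, wo, hr⟩ := exists_ord_eq I
  have hseg : ∀ i, #{j // r j i} < continuum := by
    intro i
    have h1 := card_typein_lt (r := r) i hr
    rw [card_typein] at h1
    exact lt_of_lt_of_le h1 hI
  have hsmall : ∀ i (prev : (j : I) → r j i → (E → ℝ)),
      #(Algebra.adjoin ℚ (Set.range fun p : {j // r j i} × E => prev p.1.1 p.1.2 p.2)) <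
        continuum := by
    intro i prev
    apply adjoin_small
    refine lt_of_le_of_lt mk_range_le ?_
    rw [mk_prod, Cardinal.lift_id, Cardinal.lift_id]
    exact mul_lt_of_lt aleph0_le_continuum (hseg i)
      (lt_of_le_of_lt (mk_le_aleph0_iff.mpr inferInstance) aleph0_lt_continuum)
  let F : (i : I) → ((j : I) → r j i → (E → ℝ)) → (E → ℝ) := fun i prev =>
    Classical.choose (stage _ (hsmall i prev) (ht i))
  let φ : I → E → ℝ := wo.wf.fix F
  let U : I → Subalgebra ℚ ℝ := fun i =>
    Algebra.adjoin ℚ (Set.range fun p : {j // r j i} × E => φ p.1.1 p.2)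
  have hφ : ∀ i, Ind (U i : Set ℝ) (φ i) ∧
      ∀ k, Real.cos (2 * Real.pi * lc (φ i) (t i k)) ≤ 0 := by
    intro i
    have h1 := Classical.choose_spec (stage _ (hsmall i fun j _ => φ j) (ht i))
    have h2 : φ i = Classical.choose (stage _ (hsmall i fun j _ => φ j) (ht i)) :=
      wo.wf.fix_eq F i
    rw [← h2] at h1
    exact h1
  refine ⟨φ, fun i => (hφ i).2, fun v ⟨m, hm⟩ => ?_⟩
  by_contra hv
  let _ : LinearOrder I := linearOrderOfSTO r
  have hne : (v.support.image Prod.fst).Nonempty := by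
    rw [Finset.image_nonempty, Finset.nonempty_iff_ne_empty, Ne, Finsupp.support_eq_empty]
    exact hv
  let i := (v.support.image Prod.fst).max' hne
  have hi : i ∈ v.support.image Prod.fst := Finset.max'_mem _ hne
  have hlt : ∀ p ∈ v.support, p.1 ≠ i → r p.1 i := by
    intro p hp hpi
    have h1 := Finset.le_max' (v.support.image Prod.fst) p.1 (Finset.mem_image_of_mem _ hp)
    exact lt_of_le_of_ne h1 hpi
  have hinj : Function.Injective (fun e : E => (i, e)) := fun a b h => congrArg Prod.snd h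
  let w : E →₀ ℤ := (v.filter (fun p => p.1 = i)).comapDomain (fun e => (i, e)) hinj.injOn
  have hw : w.mapDomain (fun e => (i, e)) = v.filter (fun p => p.1 = i) := by
    apply Finsupp.mapDomain_comapDomain _ hinj
    intro p hp
    rw [Finset.mem_coe, Finsupp.support_filter, Finset.mem_filter] at hp
    exact ⟨p.2, Prod.ext hp.2.symm rfl⟩
  have h1 : lc (fun p : I × E => φ p.1 p.2) (v.filter (fun p => p.1 = i)) = lc (φ i) w := by
    rw [← hw]
    unfold lc
    rw [Finsupp.linearCombination_mapDomain]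
    rfl
  have h2 : lc (fun p : I × E => φ p.1 p.2) (v.filter (fun p => ¬ p.1 = i)) ∈ U i := by
    unfold lc
    rw [Finsupp.linearCombination_apply, Finsupp.sum]
    apply Subalgebra.sum_mem
    intro p hp
    apply zsmul_mem
    rw [Finsupp.support_filter, Finset.mem_filter] at hp
    apply Algebra.subset_adjoin
    exact ⟨(⟨p.1, hlt p hp.1 hp.2⟩, p.2), rfl⟩
  have h3 : lc (fun p : I × E => φ p.1 p.2) v =
      lc (fun p : I × E => φ p.1 p.2) (v.filter (fun p => p.1 = i)) +
      lc (fun p : I × E => φ p.1 p.2) (v.filter (fun p => ¬ p.1 = i)) := by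
    unfold lc
    rw [← map_add, Finsupp.filter_add_filter_not]
  rw [h1, hm] at h3
  have h4 : lc (φ i) w ∈ U i := by
    have : lc (φ i) w = (m : ℝ) -
        lc (fun p : I × E => φ p.1 p.2) (v.filter (fun p => ¬ p.1 = i)) := by linarith
    rw [this]
    apply Subalgebra.sub_mem _ _ h2
    have := (U i).algebraMap_mem (m : ℚ)
    rwa [eq_ratCast, Rat.cast_intCast] at this
  have h5 := (hφ i).1 w h4
  obtain ⟨p, hp, hpi⟩ := Finset.mem_image.mp hi
  have h6 : w p.2 = v p := by
    change (v.filter (fun p => p.1 = i)) (i, p.2) = v p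
    have h7 : (i, p.2) = p := Prod.ext hpi.symm rfl
    rw [h7]
    exact Finsupp.filter_apply_pos (fun p : I × E => p.1 = i) v hpi
  rw [h5] at h6
  exact (Finsupp.mem_support_iff.mp hp) h6.symm

end Pool.Agent.Helper33.RSQ
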